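import Pool.Agent.MP_14a896_co.Defs

section

/-! Periodic functions with exactly two sign changes. -/

open Set Real

namespace Pool.Agent.MP_14a896_co

/-- Period `2π`. -/
def Per (d : ℝ → ℝ) : Prop := Function.Periodic d (2 * π)

/-- `d` crosses zero upwards at `α`, downwards at `β`, and nowhere else in a period. -/
structure Cr (d : ℝ → ℝ) (α β : ℝ) : Prop where
  lt : α < β
  lt' : β < α + 2 * π
  za : d α = 0
  zb : d β = 0
  pos : ∀ θ, α < θ → θ < β → 0 < d θ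
  neg : ∀ θ, β < θ → θ < α + 2 * π → d θ < 0

variable {d e : ℝ → ℝ} {α β γ δ : ℝ}

lemma Per.int (h : Per d) (z : ℤ) (θ : ℝ) : d (θ + z * (2 * π)) = d θ := h.int_mul z θ

lemma Per.add (h : Per d) (θ : ℝ) : d (θ + 2 * π) = d θ := h θ

lemma Per.sub' (h : Per d) (θ : ℝ) : d (θ - 2 * π) = d θ := Function.Periodic.sub_eq h θ

lemma Per.sub {a b : ℝ → ℝ} (ha : Per a) (hb : Per b) : Per fun θ => a θ - b θ := fun θ => by
  simp only [ha.add, hb.add]

lemma Per.neg (h : Per d) : Per fun θ => -d θ := fun θ => by simp only [h.add]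

lemma exists_shift (a θ : ℝ) : ∃ z : ℤ, a ≤ θ + z * (2 * π) ∧ θ + z * (2 * π) < a + 2 * π := by
  obtain ⟨z, hz, -⟩ := existsUnique_add_zsmul_mem_Ico two_pi_pos θ a
  exact ⟨z, by simpa using hz.1, by simpa using hz.2⟩

lemma Cr.shift (hp : Per d) (h : Cr d α β) (z : ℤ) :
    Cr d (α + z * (2 * π)) (β + z * (2 * π)) := by
  have key : ∀ θ, d θ = d (θ - z * (2 * π)) := fun θ => by
    rw [← hp.int z (θ - z * (2 * π)), sub_add_cancel]
  refine ⟨by linarith [h.lt], by linarith [h.lt'], by rw [hp.int, h.za], by rw [hp.int, h.zb],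
    fun θ h1 h2 => ?_, fun θ h1 h2 => ?_⟩
  · rw [key]; exact h.pos _ (by linarith) (by linarith)
  · rw [key]; exact h.neg _ (by linarith) (by linarith)

lemma Cr.neg' (hp : Per d) (h : Cr d α β) {θ : ℝ} (h1 : β - 2 * π < θ) (h2 : θ < α) : d θ < 0 := by
  rw [← hp.add]; exact h.neg _ (by linarith) (by linarith)

lemma Cr.flip (hp : Per d) (h : Cr d α β) : Cr (fun θ => -d θ) β (α + 2 * π) := by
  refine ⟨h.lt', by linarith [h.lt], by simp [h.zb], by simp [hp.add, h.za],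
    fun θ h1 h2 => neg_pos.2 (h.neg θ h1 h2), fun θ h1 h2 => ?_⟩
  rw [neg_lt_zero, ← hp.sub']
  exact h.pos _ (by linarith) (by linarith)

lemma Cr.mem_of_pos (hp : Per d) (h : Cr d α β) {θ : ℝ} (h1 : β - 2 * π ≤ θ)
    (h2 : θ ≤ α + 2 * π) (h0 : 0 < d θ) : α < θ ∧ θ < β := by
  constructor
  · by_contra hc
    rcases (not_lt.1 hc).eq_or_lt with rfl | hc
    · exact h0.ne' h.za
    rcases h1.eq_or_lt with rfl | h1
    · rw [hp.sub', h.zb] at h0; exact h0.false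
    · exact (h.neg' hp h1 hc).not_gt h0
  · by_contra hc
    rcases (not_lt.1 hc).eq_or_lt with rfl | hc
    · exact h0.ne' h.zb
    rcases h2.eq_or_lt with rfl | h2
    · rw [hp.add, h.za] at h0; exact h0.false
    · exact (h.neg θ hc h2).not_gt h0

lemma Cr.nonneg (h : Cr d α β) {θ : ℝ} (h1 : α ≤ θ) (h2 : θ ≤ β) : 0 ≤ d θ := by
  rcases h1.eq_or_lt with rfl | h1
  · exact h.za.ge
  rcases h2.eq_or_lt with rfl | h2
  · exact h.zb.ge
  exact (h.pos θ h1 h2).le

lemma Cr.zero (h : Cr d α β) {θ : ℝ} (h1 : α ≤ θ) (h2 : θ < α + 2 * π) (h0 : d θ = 0) :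
    θ = α ∨ θ = β := by
  rcases h1.eq_or_lt with rfl | h1
  · exact Or.inl rfl
  rcases lt_trichotomy θ β with h3 | h3 | h3
  · exact absurd h0 (h.pos θ h1 h3).ne'
  · exact Or.inr h3
  · exact absurd h0 (h.neg θ h3 h2).ne

lemma Cr.unique (hp : Per d) (h : Cr d α β) (h' : Cr d γ δ) :
    ∃ z : ℤ, α = γ + z * (2 * π) ∧ β = δ + z * (2 * π) := by
  obtain ⟨z, h1, h2⟩ := exists_shift α γ
  have k := h'.shift hp z
  refine ⟨z, ?_⟩
  generalize γ + z * (2 * π) = γ' at *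
  generalize δ + z * (2 * π) = δ' at *
  have e : γ' = α := by
    refine (h.zero h1 h2 k.za).resolve_right fun e => ?_
    subst e
    have m1 := min_le_left δ' (α + 2 * π)
    have m2 := min_le_right δ' (α + 2 * π)
    have m3 : γ' < min δ' (α + 2 * π) := lt_min k.lt h2
    exact (k.pos ((γ' + min δ' (α + 2 * π)) / 2) (by linarith) (by linarith)).not_gt
      (h.neg _ (by linarith) (by linarith))
  subst e
  exact ⟨rfl, ((h.zero k.lt.le k.lt' k.zb).resolve_left k.lt.ne').symm⟩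

lemma Cr.no_four (hp : Per d) (h : Cr d α β) {t₁ t₂ t₃ t₄ : ℝ} (h12 : t₁ < t₂) (h23 : t₂ < t₃)
    (h34 : t₃ < t₄) (h41 : t₄ < t₁ + 2 * π) (s₁ : d t₁ < 0) (s₂ : 0 < d t₂) (s₃ : d t₃ < 0)
    (s₄ : 0 < d t₄) : False := by
  obtain ⟨z, h1, h2⟩ := exists_shift t₁ β
  have k := h.shift hp z
  generalize α + z * (2 * π) = α' at *
  generalize β + z * (2 * π) = β' at *
  have a1 : t₁ < α' := by
    by_contra hc
    exact (k.nonneg (not_lt.1 hc) h1).not_gt s₁
  have a2 := k.mem_of_pos hp (θ := t₂) (by linarith) (by linarith) s₂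
  have a4 := k.mem_of_pos hp (θ := t₄) (by linarith) (by linarith) s₄
  exact (k.pos t₃ (by linarith [a2.1]) (by linarith [a4.2])).not_gt s₃

/-- The crossings of `d` and `e` alternate, with `d` first. -/
def Interl (d e : ℝ → ℝ) : Prop :=
  ∃ α β γ δ, α < γ ∧ γ < β ∧ β < δ ∧ δ < α + 2 * π ∧ Cr d α β ∧ Cr e γ δ

lemma Interl.rot (hp : Per d) (h : Interl d e) : Interl e fun θ => -d θ := by
  obtain ⟨α, β, γ, δ, h1, h2, h3, h4, h5, h6⟩ := h
  exact ⟨γ, δ, β, α + 2 * π, h2, h3, h4, by linarith, h6, h5.flip hp⟩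

/-- The three functions are on top in cyclic order. -/
def Ccw (a b c : ℝ → ℝ) : Prop :=
  ∃ θ₁ θ₂ θ₃, θ₁ < θ₂ ∧ θ₂ < θ₃ ∧ θ₃ < θ₁ + 2 * π ∧ (b θ₁ < a θ₁ ∧ c θ₁ < a θ₁) ∧
    (a θ₂ < b θ₂ ∧ c θ₂ < b θ₂) ∧ (a θ₃ < c θ₃ ∧ b θ₃ < c θ₃)

variable {a b c : ℝ → ℝ}

lemma Interl.ccw (ha : Per a) (hb : Per b) (hc : Per c)
    (h : Interl (fun θ => b θ - a θ) fun θ => c θ - a θ) : Ccw a b c := by
  obtain ⟨α, β, γ, δ, h1, h2, h3, h4, h5, h6⟩ := h
  have p1 := hb.sub ha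
  have p2 := hc.sub ha
  have a1 := h5.neg' p1 (θ := (δ - 2 * π + α) / 2) (by linarith) (by linarith)
  have a2 := h6.neg' p2 (θ := (δ - 2 * π + α) / 2) (by linarith) (by linarith)
  have a3 := h5.pos ((α + γ) / 2) (by linarith) (by linarith)
  have a4 := h6.neg' p2 (θ := (α + γ) / 2) (by linarith) (by linarith)
  have a5 := h5.neg ((β + δ) / 2) (by linarith) (by linarith)
  have a6 := h6.pos ((β + δ) / 2) (by linarith) (by linarith)
  exact ⟨(δ - 2 * π + α) / 2, (α + γ) / 2, (β + δ) / 2, by linarith, by linarith, by linarith,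
    ⟨by linarith, by linarith⟩, ⟨by linarith, by linarith⟩, by linarith, by linarith⟩

lemma Interl.not_ccw (ha : Per a) (hb : Per b) (hc : Per c)
    (h : Interl (fun θ => b θ - a θ) fun θ => c θ - a θ) {μ ν : ℝ}
    (h' : Cr (fun θ => c θ - b θ) μ ν) : ¬ Ccw a c b := by
  obtain ⟨α, β, γ, δ, h1, h2, h3, h4, h5, h6⟩ := h
  rintro ⟨θ₁, θ₂, θ₃, k1, k2, k3, ⟨t1, t2⟩, ⟨t3, t4⟩, t5, t6⟩
  have p1 := hb.sub ha
  have p2 := hc.sub ha
  obtain ⟨z, s1, s2⟩ := exists_shift θ₁ δ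
  have c5 := h5.shift p1 z
  have c6 := h6.shift p2 z
  have g1 : α + z * (2 * π) < γ + z * (2 * π) := by linarith
  have g2 : γ + z * (2 * π) < β + z * (2 * π) := by linarith
  have g3 : β + z * (2 * π) < δ + z * (2 * π) := by linarith
  have g4 : δ + z * (2 * π) < α + z * (2 * π) + 2 * π := by linarith
  generalize α + z * (2 * π) = α' at *
  generalize β + z * (2 * π) = β' at *
  generalize γ + z * (2 * π) = γ' at *
  generalize δ + z * (2 * π) = δ' at *
  have a1 : θ₁ < α' := by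
    by_contra hc'
    rcases le_total θ₁ β' with hh | hh
    · have := c5.nonneg (not_lt.1 hc') hh
      linarith
    · have := c6.nonneg (θ := θ₁) (by linarith) s1
      linarith
  have a2 := c6.mem_of_pos p2 (θ := θ₂) (by linarith) (by linarith) (by linarith)
  have a3 := c5.mem_of_pos p1 (θ := θ₃) (by linarith) (by linarith) (by linarith)
  have b3 := c5.pos ((α' + γ') / 2) (by linarith) (by linarith)
  have b4 := c6.neg' p2 (θ := (α' + γ') / 2) (by linarith) (by linarith)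
  have b5 := c5.neg ((β' + δ') / 2) (by linarith) (by linarith)
  have b6 := c6.pos ((β' + δ') / 2) (by linarith) (by linarith)
  exact h'.no_four (hc.sub hb) (t₁ := (α' + γ') / 2) (t₂ := θ₂) (t₃ := θ₃) (t₄ := (β' + δ') / 2)
    (by linarith [a2.1]) k2 (by linarith [a3.2]) (by linarith) (by linarith) (by linarith)
    (by linarith) (by linarith)

lemma Cr.transfer {φ : ℝ ≃o ℝ} (hφ : ∀ θ, φ (θ + 2 * π) = φ θ + 2 * π)
    (hs : ∀ θ, SignType.sign (d θ) = SignType.sign (e (φ θ))) (h : Cr e α β) :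
    Cr d (φ.symm α) (φ.symm β) := by
  have h1 : φ.symm (α + 2 * π) = φ.symm α + 2 * π := by
    rw [OrderIso.symm_apply_eq, hφ, φ.apply_symm_apply]
  refine ⟨φ.symm.strictMono h.lt, h1 ▸ φ.symm.strictMono h.lt', ?_, ?_, fun θ a1 a2 => ?_,
    fun θ a1 a2 => ?_⟩
  · rw [← _root_.sign_eq_zero_iff, hs, φ.apply_symm_apply, h.za, _root_.sign_zero]
  · rw [← _root_.sign_eq_zero_iff, hs, φ.apply_symm_apply, h.zb, _root_.sign_zero]
  · rw [← sign_eq_one_iff, hs, sign_eq_one_iff]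
    exact h.pos _ (φ.symm_apply_lt.1 a1) (φ.lt_symm_apply.1 a2)
  · rw [← sign_eq_neg_one_iff, hs, sign_eq_neg_one_iff]
    rw [← h1] at a2
    exact h.neg _ (φ.symm_apply_lt.1 a1) (φ.lt_symm_apply.1 a2)

lemma Interl.transfer {d' e' : ℝ → ℝ} {φ : ℝ ≃o ℝ} (hφ : ∀ θ, φ (θ + 2 * π) = φ θ + 2 * π)
    (hd : ∀ θ, SignType.sign (d θ) = SignType.sign (d' (φ θ)))
    (he : ∀ θ, SignType.sign (e θ) = SignType.sign (e' (φ θ))) (h : Interl d' e') :
    Interl d e := by
  obtain ⟨α, β, γ, δ, h1, h2, h3, h4, h5, h6⟩ := h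
  have h7 : φ.symm (α + 2 * π) = φ.symm α + 2 * π := by
    rw [OrderIso.symm_apply_eq, hφ, φ.apply_symm_apply]
  exact ⟨_, _, _, _, φ.symm.strictMono h1, φ.symm.strictMono h2, φ.symm.strictMono h3,
    h7 ▸ φ.symm.strictMono h4, h5.transfer hφ hd, h6.transfer hφ he⟩

lemma cr_sin {r : ℝ} (hr : 0 < r) (α : ℝ) : Cr (fun θ => r * sin (θ - α)) α (α + π) := by
  have := pi_pos
  refine ⟨by linarith, by linarith, by simp, by simp, fun θ h1 h2 => ?_, fun θ h1 h2 => ?_⟩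
  · exact mul_pos hr (sin_pos_of_pos_of_lt_pi (by linarith) (by linarith))
  · refine mul_neg_of_pos_of_neg hr ?_
    rw [← sin_sub_two_pi]
    exact sin_neg_of_neg_of_neg_pi_lt (by linarith) (by linarith)

lemma exists_polar {v : ℝ × ℝ} (hv : v ≠ 0) (a : ℝ) : ∃ r α, 0 < r ∧ a ≤ α ∧ α < a + 2 * π ∧
    v.1 = -(r * sin α) ∧ v.2 = r * cos α := by
  let z : ℂ := ⟨v.2, -v.1⟩
  have hz : z ≠ 0 := fun h => hv (Prod.ext (by simpa [z] using congrArg Complex.im h)
    (by simpa [z] using congrArg Complex.re h))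
  obtain ⟨n, h1, h2⟩ := exists_shift a z.arg
  refine ⟨‖z‖, _, norm_pos_iff.2 hz, h1, h2, ?_, ?_⟩
  · rw [sin_add_int_mul_two_pi, Complex.norm_mul_sin_arg]; simp [z]
  · rw [cos_add_int_mul_two_pi, Complex.norm_mul_cos_arg]

lemma ip_polar {v : ℝ × ℝ} {r α : ℝ} (h1 : v.1 = -(r * sin α)) (h2 : v.2 = r * cos α) :
    (fun θ => ip θ v) = fun θ => r * sin (θ - α) := by
  funext θ
  rw [ip, h1, h2, sin_sub]
  ring

lemma exists_cr_ip {v : ℝ × ℝ} (hv : v ≠ 0) : ∃ α β, Cr (fun θ => ip θ v) α β := by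
  obtain ⟨r, α, hr, -, -, h1, h2⟩ := exists_polar hv 0
  exact ⟨_, _, ip_polar h1 h2 ▸ cr_sin hr α⟩

lemma interl_ip {v w : ℝ × ℝ} (h : 0 < v.1 * w.2 - v.2 * w.1) :
    Interl (fun θ => ip θ v) fun θ => ip θ w := by
  have hv : v ≠ 0 := by rintro rfl; simp at h
  have hw : w ≠ 0 := by rintro rfl; simp at h
  obtain ⟨r, α, hr, -, -, h1, h2⟩ := exists_polar hv 0
  obtain ⟨s, γ, hs, h3, h4, h5, h6⟩ := exists_polar hw α
  have e : v.1 * w.2 - v.2 * w.1 = r * s * sin (γ - α) := by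
    rw [h1, h2, h5, h6, sin_sub]; ring
  rw [e] at h
  have h7 : 0 < sin (γ - α) := (mul_pos_iff_of_pos_left (mul_pos hr hs)).1 h
  have h8 : α < γ := by
    refine h3.lt_of_ne fun h => ?_
    rw [h, sub_self, sin_zero] at h7
    exact h7.false
  have h9 : γ < α + π := by
    by_contra hc
    have := sin_nonpos_of_nonpos_of_neg_pi_le (x := γ - α - 2 * π) (by linarith) (by linarith)
    rw [sin_sub_two_pi] at this
    exact this.not_gt h7
  rw [ip_polar h1 h2, ip_polar h5 h6]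
  exact ⟨α, α + π, γ, γ + π, h8, h9, by linarith, by linarith, cr_sin hr α, cr_sin hs γ⟩

end Pool.Agent.MP_14a896_co

end

section

/-! Support functions of polygons; the crossing structure of an orientable triple. -/

open Set Real

namespace Pool.Agent.MP_14a896_co

lemma ip_add_two_pi (θ : ℝ) : ip (θ + 2 * π) = ip θ := by
  funext p; simp [ip]

lemma per_ip (p : ℝ × ℝ) : Per fun θ => ip θ p := fun θ => by simp only [ip_add_two_pi]

lemma per_supp (A : Set (ℝ × ℝ)) : Per (supp A) := fun θ => by simp only [supp, ip_add_two_pi]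

lemma ip_sub (θ : ℝ) (p q : ℝ × ℝ) : ip θ (p - q) = ip θ p - ip θ q := by
  simp [ip]; ring

lemma continuous_ip (p : ℝ × ℝ) : Continuous fun θ => ip θ p := by
  unfold ip; fun_prop

lemma supp_singleton (p : ℝ × ℝ) (θ : ℝ) : supp {p} θ = ip θ p := by simp [supp]

lemma Supports.eq {A : Set (ℝ × ℝ)} {θ t : ℝ} (h : Supports A θ t) : supp A θ = t := by
  refine IsGreatest.csSup_eq ⟨?_, ?_⟩
  · obtain ⟨p, hp, e⟩ := h.2
    exact ⟨p, hp, e⟩
  · rintro _ ⟨p, hp, rfl⟩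
    exact h.1 p hp

lemma supports_hull {V : Finset (ℝ × ℝ)} {θ t : ℝ} (h1 : ∀ v ∈ V, ip θ v ≤ t)
    (h2 : ∃ v ∈ V, ip θ v = t) : Supports (convexHull ℝ (V : Set (ℝ × ℝ))) θ t := by
  refine ⟨convexHull_min h1 (convex_halfSpace_le (f := ip θ) ⟨fun p q => ?_, fun c p => ?_⟩ t), ?_⟩
  · simp [ip]; ring
  · simp [ip]; ring
  · obtain ⟨v, hv, e⟩ := h2
    exact ⟨v, subset_convexHull _ _ hv, e⟩

lemma exists_vertex {V : Finset (ℝ × ℝ)} (hV : V.Nonempty) (θ : ℝ) :
    ∃ v ∈ V, supp (convexHull ℝ (V : Set (ℝ × ℝ))) θ = ip θ v ∧ ∀ w ∈ V, ip θ w ≤ ip θ v := by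
  obtain ⟨v, hv, h⟩ := V.exists_max_image (ip θ) hV
  exact ⟨v, hv, (supports_hull h ⟨v, hv, rfl⟩).eq, h⟩

lemma le_supp_vertex {V : Finset (ℝ × ℝ)} {w : ℝ × ℝ} (hw : w ∈ V) (θ : ℝ) :
    ip θ w ≤ supp (convexHull ℝ (V : Set (ℝ × ℝ))) θ := by
  obtain ⟨v, -, h1, h2⟩ := exists_vertex ⟨w, hw⟩ θ
  exact h1 ▸ h2 w hw

lemma supports_supp {V : Finset (ℝ × ℝ)} (hV : V.Nonempty) (θ : ℝ) :
    Supports (convexHull ℝ (V : Set (ℝ × ℝ))) θ (supp (convexHull ℝ (V : Set (ℝ × ℝ))) θ) := by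
  obtain ⟨v, hv, h1, h2⟩ := exists_vertex hV θ
  exact supports_hull (h1 ▸ h2) ⟨v, hv, h1.symm⟩

lemma continuous_supp_hull {V : Finset (ℝ × ℝ)} (hV : V.Nonempty) :
    Continuous (supp (convexHull ℝ (V : Set (ℝ × ℝ)))) := by
  have : supp (convexHull ℝ (V : Set (ℝ × ℝ))) = fun θ => V.sup' hV fun v => ip θ v := by
    funext θ
    obtain ⟨v, hv, h1, h2⟩ := exists_vertex hV θ
    rw [h1]
    exact le_antisymm (Finset.le_sup' (fun v => ip θ v) hv) (Finset.sup'_le _ _ h2)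
  rw [this]
  exact Continuous.finset_sup'_apply hV fun v _ => continuous_ip v

lemma IsGon.continuous {k : ℕ} {A : Set (ℝ × ℝ)} (h : IsGon k A) : Continuous (supp A) := by
  obtain ⟨V, hV, -, rfl⟩ := h
  exact continuous_supp_hull hV

lemma continuous_supp_singleton (p : ℝ × ℝ) : Continuous (supp {p}) := by
  have : supp {p} = fun θ => ip θ p := funext (supp_singleton p)
  rw [this]; exact continuous_ip p

section homeo

variable {Φ : ℝ × ℝ ≃ₜ ℝ × ℝ} {a b : ℝ → ℝ}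

lemma sign_homeo (hend : ∀ M, ∃ N, ∀ x : ℝ × ℝ, N ≤ x.2 → M ≤ (Φ x).2) (ha : Continuous a)
    (hb : Continuous b) (hb' : Per b) (h : Φ '' {x | x.2 = a x.1} = {x | x.2 = b x.1})
    (x : ℝ × ℝ) : SignType.sign (x.2 - a x.1) = SignType.sign ((Φ x).2 - b (Φ x).1) := by
  have hg : ∀ x : ℝ × ℝ, (Φ x).2 = b (Φ x).1 ↔ x.2 = a x.1 := fun x => by
    have : Φ x ∈ Φ '' {x | x.2 = a x.1} ↔ x ∈ {x : ℝ × ℝ | x.2 = a x.1} :=
      Φ.injective.mem_set_image
    rw [h] at this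
    exact this
  have hU : IsOpen {y : ℝ × ℝ | b y.1 < y.2} := isOpen_lt (hb.comp continuous_fst) continuous_snd
  have hL : IsOpen {y : ℝ × ℝ | y.2 < b y.1} := isOpen_lt continuous_snd (hb.comp continuous_fst)
  have hd : Disjoint {y : ℝ × ℝ | b y.1 < y.2} {y : ℝ × ℝ | y.2 < b y.1} :=
    disjoint_left.2 fun y h1 h2 => lt_asymm (show b y.1 < y.2 from h1) (show y.2 < b y.1 from h2)
  have key : ∀ S : Set ℝ, IsPreconnected S → (0 : ℝ) ∉ S →
      (∀ x : ℝ × ℝ, x.2 - a x.1 ∈ S → b (Φ x).1 < (Φ x).2) ∨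
      ∀ x : ℝ × ℝ, x.2 - a x.1 ∈ S → (Φ x).2 < b (Φ x).1 := by
    intro S hS h0
    have hc : Continuous fun y : ℝ × ℝ => Φ (y.1, a y.1 + y.2) := by fun_prop
    have h1 := (isPreconnected_univ.prod hS).image _ hc.continuousOn
    have h2 := h1.subset_or_subset hU hL hd (by
      rintro _ ⟨y, hy, rfl⟩
      have : (Φ (y.1, a y.1 + y.2)).2 ≠ b (Φ (y.1, a y.1 + y.2)).1 := fun e => by
        have e' := (hg _).1 e
        simp only [add_eq_left] at e'
        exact h0 (e' ▸ hy.2)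
      exact this.lt_or_gt.symm)
    have h3 : ∀ x : ℝ × ℝ, x.2 - a x.1 ∈ S →
        Φ x ∈ (fun y : ℝ × ℝ => Φ (y.1, a y.1 + y.2)) '' univ ×ˢ S := fun x hx =>
      ⟨(x.1, x.2 - a x.1), ⟨trivial, hx⟩, by simp⟩
    exact h2.imp (fun h x hx => h (h3 x hx)) fun h x hx => h (h3 x hx)
  have up : ∀ x : ℝ × ℝ, 0 < x.2 - a x.1 → b (Φ x).1 < (Φ x).2 := by
    refine (key (Ioi 0) isPreconnected_Ioi (by simp)).resolve_right fun hc => ?_
    obtain ⟨M, hM⟩ := (hb'.isBounded_of_continuous two_pi_pos.ne' hb).bddAbove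
    obtain ⟨N, hN⟩ := hend M
    have h1 := hc (0, max N (a 0 + 1)) (by
      have := le_max_right N (a 0 + 1)
      simp only [mem_Ioi]
      linarith)
    exact (h1.trans_le (hM ⟨_, rfl⟩)).not_ge (hN _ (le_max_left _ _))
  have down : ∀ x : ℝ × ℝ, x.2 - a x.1 < 0 → (Φ x).2 < b (Φ x).1 := by
    refine (key (Iio 0) isPreconnected_Iio (by simp)).resolve_left fun hc => ?_
    obtain ⟨x, hx⟩ := Φ.surjective (0, b 0 - 1)
    rcases lt_trichotomy (x.2 - a x.1) 0 with h1 | h1 | h1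
    · have := hc x h1
      rw [hx] at this
      linarith
    · have := (hg x).2 (sub_eq_zero.1 h1)
      rw [hx] at this
      linarith
    · have := up x h1
      rw [hx] at this
      linarith
  rcases lt_trichotomy (x.2 - a x.1) 0 with h1 | h1 | h1
  · rw [_root_.sign_neg h1, _root_.sign_neg (sub_neg.2 (down x h1))]
  · rw [h1, (hg x).2 (sub_eq_zero.1 h1), sub_self]
  · rw [_root_.sign_pos h1, _root_.sign_pos (sub_pos.2 (up x h1))]

lemma exists_param (hper : ∀ x, Φ (x + (2 * π, 0)) = Φ x + (2 * π, 0)) (ha : Continuous a)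
    (ha' : Per a) (h : Φ '' {x | x.2 = a x.1} = {x | x.2 = b x.1}) :
    ∃ φ : ℝ ≃o ℝ, (∀ θ, φ (θ + 2 * π) = φ θ + 2 * π) ∧ ∀ θ, Φ (θ, a θ) = (φ θ, b (φ θ)) := by
  let f : ℝ → ℝ := fun θ => (Φ (θ, a θ)).1
  have h1 : ∀ θ, Φ (θ, a θ) = (f θ, b (f θ)) := fun θ => by
    have : Φ (θ, a θ) ∈ {x : ℝ × ℝ | x.2 = b x.1} := h ▸ mem_image_of_mem _ rfl
    exact Prod.ext rfl this
  have hc : Continuous f := by fun_prop
  have hi : Function.Injective f := fun s t e => by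
    have : Φ (s, a s) = Φ (t, a t) := by rw [h1, h1, e]
    exact congrArg Prod.fst (Φ.injective this)
  have hs : Function.Surjective f := fun y => by
    have : (y, b y) ∈ Φ '' {x | x.2 = a x.1} := h ▸ rfl
    obtain ⟨x, hx, e⟩ := this
    refine ⟨x.1, ?_⟩
    have e' : (x.1, a x.1) = x := Prod.ext rfl hx.symm
    simp only [f, e', e]
  have hp : ∀ θ, f (θ + 2 * π) = f θ + 2 * π := fun θ => by
    have := congrArg Prod.fst (hper (θ, a θ))
    simpa [f, ha'.add] using this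
  have hm : StrictMono f := by
    refine (hc.strictMono_of_inj hi).resolve_right fun hc => ?_
    have := hc (show (0 : ℝ) < 0 + 2 * π by linarith [pi_pos])
    rw [hp] at this
    linarith [pi_pos]
  exact ⟨hm.orderIsoOfSurjective f hs, hp, h1⟩

end homeo

lemma SameType.param {ι : Type} {A B : ι → Set (ℝ × ℝ)} (h : SameType A B)
    (hA : ∀ i, Continuous (supp (A i))) (hB : ∀ i, Continuous (supp (B i))) (l : ι) :
    ∃ φ : ℝ ≃o ℝ, (∀ θ, φ (θ + 2 * π) = φ θ + 2 * π) ∧ ∀ m θ,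
      SignType.sign (supp (A m) θ - supp (A l) θ) =
        SignType.sign (supp (B m) (φ θ) - supp (B l) (φ θ)) := by
  obtain ⟨Φ, h1, h2, h3⟩ := h
  obtain ⟨φ, h4, h5⟩ := exists_param h1 (hA l) (per_supp _) (h3 l)
  refine ⟨φ, h4, fun m θ => ?_⟩
  have := sign_homeo h2 (hA m) (hB m) (per_supp _) (h3 m) (θ, supp (A l) θ)
  rw [h5] at this
  rw [← neg_sub, Left.sign_neg, this, ← Left.sign_neg, neg_sub]

lemma SameType.swap {A B C A' B' C' : Set (ℝ × ℝ)} (h : SameType ![A, B, C] ![A', B', C']) :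
    SameType ![A, C, B] ![A', C', B'] := by
  obtain ⟨Φ, h1, h2, h3⟩ := h
  refine ⟨Φ, h1, h2, fun i => ?_⟩
  fin_cases i
  · exact h3 0
  · exact h3 2
  · exact h3 1

lemma det3_swap (p q r : ℝ × ℝ) : det3 p r q = -det3 p q r := by simp [det3]; ring

lemma model_pos {A B C : Set (ℝ × ℝ)} (hA : Continuous (supp A)) (hB : Continuous (supp B))
    (hC : Continuous (supp C)) {p q r : ℝ × ℝ} (h : SameType ![A, B, C] ![{p}, {q}, {r}])
    (hd : 0 < det3 p q r) :
    Interl (fun θ => supp B θ - supp A θ) (fun θ => supp C θ - supp A θ) ∧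
      Counterclockwise A B C ∧ ¬ Counterclockwise A C B := by
  have c1 : ∀ i, Continuous (supp (![A, B, C] i)) := fun i => by fin_cases i <;> assumption
  have c2 : ∀ i, Continuous (supp (![{p}, {q}, {r}] i)) := fun i => by
    fin_cases i <;> exact continuous_supp_singleton _
  obtain ⟨φ, h1, h2⟩ := h.param c1 c2 0
  obtain ⟨ψ, h3, h4⟩ := h.param c1 c2 1
  have k1 : Interl (fun θ => supp B θ - supp A θ) (fun θ => supp C θ - supp A θ) := by
    refine (interl_ip (v := q - p) (w := r - p) hd).transfer h1 (fun θ => ?_) fun θ => ?_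
    · simpa [supp_singleton, ip_sub] using h2 1 θ
    · simpa [supp_singleton, ip_sub] using h2 2 θ
  obtain ⟨μ, ν, k2⟩ := exists_cr_ip (v := r - q) (by
    intro e
    rw [sub_eq_zero.1 e] at hd
    simp [det3, mul_comm] at hd)
  have k3 : Cr (fun θ => supp C θ - supp B θ) (ψ.symm μ) (ψ.symm ν) :=
    k2.transfer h3 fun θ => by simpa [supp_singleton, ip_sub] using h4 2 θ
  exact ⟨k1, k1.ccw (per_supp _) (per_supp _) (per_supp _),
    k1.not_ccw (per_supp _) (per_supp _) (per_supp _) k3⟩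

lemma model_iff {A B C : Set (ℝ × ℝ)} (hA : Continuous (supp A)) (hB : Continuous (supp B))
    (hC : Continuous (supp C)) {p q r : ℝ × ℝ} (h : SameType ![A, B, C] ![{p}, {q}, {r}])
    (hd : det3 p q r ≠ 0) : Counterclockwise A B C ↔ 0 < det3 p q r := by
  refine ⟨fun hc => hd.lt_or_gt.resolve_left fun hn => ?_, fun hp => (model_pos hA hB hC h hp).2.1⟩
  exact (model_pos hA hC hB h.swap (by rw [det3_swap]; linarith)).2.2 hc

lemma OrientableTriple.interl {A B C : Set (ℝ × ℝ)} (h : OrientableTriple A B C)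
    (hA : Continuous (supp A)) (hB : Continuous (supp B)) (hC : Continuous (supp C))
    (hc : Counterclockwise A B C) :
    Interl (fun θ => supp B θ - supp A θ) (fun θ => supp C θ - supp A θ) := by
  obtain ⟨p, q, r, hd, h⟩ := h
  exact (model_pos hA hB hC h ((model_iff hA hB hC h hd).1 hc)).1

end Pool.Agent.MP_14a896_co

end

section

/-! A fibrewise homeomorphism between three curves with the same order at every angle. -/

open Set Real Filter Topology

namespace Pool.Agent.MP_14a896_co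

/-- Stretching the interval `[l, l + w]` to `[l, l + w']`. -/
noncomputable def stretch (l w w' t : ℝ) : ℝ := t + (w' - w) * max 0 (min 1 ((t - l) / w))

lemma stretch_le {l w w' t : ℝ} (hw : 0 ≤ w) (h : t ≤ l) : stretch l w w' t = t := by
  have : (t - l) / w ≤ 0 := div_nonpos_of_nonpos_of_nonneg (by linarith) hw
  rw [stretch, max_eq_left (min_le_of_right_le this), mul_zero, add_zero]

lemma stretch_ge {l w w' t : ℝ} (hw : 0 ≤ w) (h0 : w = 0 → w' = 0) (h : l + w ≤ t) :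
    stretch l w w' t = t + (w' - w) := by
  rcases hw.eq_or_lt with rfl | hw
  · simp [stretch, h0 rfl]
  · have : 1 ≤ (t - l) / w := (one_le_div hw).2 (by linarith)
    rw [stretch, min_eq_left this, max_eq_right zero_le_one, mul_one]

lemma stretch_stretch {l w w' : ℝ} (hw : 0 ≤ w) (hw' : 0 ≤ w') (h0 : w = 0 ↔ w' = 0) (t : ℝ) :
    stretch l w' w (stretch l w w' t) = t := by
  rcases le_total t l with h | h
  · rw [stretch_le hw h, stretch_le hw' h]
  rcases le_total (l + w) t with h' | h'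
  · rw [stretch_ge hw h0.1 h', stretch_ge hw' h0.2 (by linarith)]
    ring
  rcases hw.eq_or_lt with rfl | hw
  · simp [stretch, h0.1 rfl]
  have hw'' : 0 < w' := hw'.lt_of_ne fun e => hw.ne' (h0.2 e.symm)
  have a1 : 0 ≤ (t - l) / w := div_nonneg (by linarith) hw.le
  have a2 : (t - l) / w ≤ 1 := (div_le_one hw).2 (by linarith)
  have e1 : stretch l w w' t = l + w' * ((t - l) / w) := by
    rw [stretch, min_eq_right a2, max_eq_right a1]
    field_simp
    ring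
  have e2 : (l + w' * ((t - l) / w) - l) / w' = (t - l) / w := by
    field_simp
    ring
  rw [e1, stretch, e2, min_eq_right a2, max_eq_right a1]
  field_simp
  ring

lemma continuous_stretch {l w w' : ℝ → ℝ} (hl : Continuous l) (hw : Continuous w)
    (hw' : Continuous w') (h0 : ∀ θ, w θ = 0 → w' θ = 0) :
    Continuous fun x : ℝ × ℝ => stretch (l x.1) (w x.1) (w' x.1) x.2 := by
  refine continuous_snd.add (continuous_iff_continuousAt.2 fun x => ?_)
  have c1 : Continuous fun x : ℝ × ℝ => w' x.1 - w x.1 := by fun_prop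
  by_cases hx : w x.1 = 0
  · have e : w' x.1 - w x.1 = 0 := by rw [hx, h0 _ hx, sub_zero]
    rw [ContinuousAt, e, zero_mul]
    refine squeeze_zero_norm (a := fun x : ℝ × ℝ => ‖w' x.1 - w x.1‖) (fun y => ?_) ?_
    · rw [norm_mul]
      refine mul_le_of_le_one_right (norm_nonneg _) ?_
      rw [Real.norm_of_nonneg (le_max_left _ _)]
      exact max_le zero_le_one (min_le_left _ _)
    · simpa [e] using (c1.norm.tendsto x)
  · refine c1.continuousAt.mul (continuousAt_const.max (continuousAt_const.min ?_))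
    exact ContinuousAt.div (by fun_prop) (by fun_prop) hx

/-- Fibrewise periodic homeomorphisms with bounded displacement. -/
structure Fib (Φ : ℝ × ℝ ≃ₜ ℝ × ℝ) : Prop where
  per : ∀ x, Φ (x + (2 * π, 0)) = Φ x + (2 * π, 0)
  bd : ∃ C, ∀ x : ℝ × ℝ, x.2 - C ≤ (Φ x).2

lemma Fib.trans {Φ Ψ : ℝ × ℝ ≃ₜ ℝ × ℝ} (h : Fib Φ) (h' : Fib Ψ) : Fib (Φ.trans Ψ) := by
  refine ⟨fun x => by simp only [Homeomorph.trans_apply, h.per, h'.per], ?_⟩
  obtain ⟨C, hC⟩ := h.bd
  obtain ⟨C', hC'⟩ := h'.bd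
  refine ⟨C + C', fun x => ?_⟩
  have := hC x
  have := hC' (Φ x)
  simp only [Homeomorph.trans_apply]
  linarith

lemma Per.bound {d : ℝ → ℝ} (h : Per d) (hc : Continuous d) : ∃ C, ∀ θ, |d θ| ≤ C := by
  obtain ⟨C, hC⟩ := (h.isBounded_of_continuous two_pi_pos.ne' hc).exists_norm_le
  exact ⟨C, fun θ => hC _ ⟨θ, rfl⟩⟩

lemma exists_shear {d : ℝ → ℝ} (h : Per d) (hc : Continuous d) :
    ∃ Φ, Fib Φ ∧ ∀ θ t, Φ (θ, t) = (θ, t + d θ) := by
  refine ⟨⟨⟨fun x => (x.1, x.2 + d x.1), fun x => (x.1, x.2 - d x.1), fun x => by simp,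
    fun x => by simp⟩, by fun_prop, by fun_prop⟩, ⟨fun x => ?_, ?_⟩, fun _ _ => rfl⟩
  · simp [h.add]
  · obtain ⟨C, hC⟩ := h.bound hc
    refine ⟨C, fun x => ?_⟩
    have := (abs_le.1 (hC x.1)).1
    show x.2 - C ≤ x.2 + d x.1
    linarith

lemma exists_stretch {l w w' : ℝ → ℝ} (pl : Per l) (pw : Per w) (pw' : Per w')
    (hl : Continuous l) (hw : Continuous w) (hw' : Continuous w') (h1 : ∀ θ, 0 ≤ w θ)
    (h2 : ∀ θ, 0 ≤ w' θ) (h0 : ∀ θ, w θ = 0 ↔ w' θ = 0) :
    ∃ Φ, Fib Φ ∧ ∀ θ t, Φ (θ, t) = (θ, stretch (l θ) (w θ) (w' θ) t) := by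
  refine ⟨⟨⟨fun x => (x.1, stretch (l x.1) (w x.1) (w' x.1) x.2),
    fun x => (x.1, stretch (l x.1) (w' x.1) (w x.1) x.2),
    fun x => Prod.ext rfl (stretch_stretch (h1 _) (h2 _) (h0 _) _),
    fun x => Prod.ext rfl (stretch_stretch (h2 _) (h1 _) (h0 _).symm _)⟩,
    continuous_fst.prodMk (continuous_stretch hl hw hw' fun θ => (h0 θ).1),
    continuous_fst.prodMk (continuous_stretch hl hw' hw fun θ => (h0 θ).2)⟩,
    ⟨fun x => ?_, ?_⟩, fun _ _ => rfl⟩
  · simp [pl.add, pw.add, pw'.add]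
  · obtain ⟨C, hC⟩ := pw.bound hw
    refine ⟨C, fun x => ?_⟩
    have a1 := (abs_le.1 (hC x.1)).2
    have a2 : 0 ≤ max 0 (min 1 ((x.2 - l x.1) / w x.1)) := le_max_left _ _
    have a3 : max 0 (min 1 ((x.2 - l x.1) / w x.1)) ≤ 1 := max_le zero_le_one (min_le_left _ _)
    have a4 := h1 x.1
    have a5 := h2 x.1
    show x.2 - C ≤ stretch _ _ _ _
    unfold stretch
    nlinarith

/-- The smallest of three numbers. -/
def lo (a : Fin 3 → ℝ) : ℝ := min (a 0) (min (a 1) (a 2))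
/-- The largest of three numbers. -/
def hi (a : Fin 3 → ℝ) : ℝ := max (a 0) (max (a 1) (a 2))
/-- The middle one of three numbers. -/
def mid (a : Fin 3 → ℝ) : ℝ := a 0 + a 1 + a 2 - lo a - hi a

lemma sorted3 {a b : Fin 3 → ℝ}
    (h : ∀ i j, SignType.sign (a i - a j) = SignType.sign (b i - b j)) :
    lo a ≤ mid a ∧ mid a ≤ hi a ∧ (mid a = lo a → mid b = lo b) ∧ (hi a = mid a → hi b = mid b) ∧
      ∀ i, (a i = lo a ∧ b i = lo b) ∨ (a i = mid a ∧ b i = mid b) ∨ (a i = hi a ∧ b i = hi b) := by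
  have key : ∀ i j, (a i < a j ∧ b i < b j) ∨ (a i = a j ∧ b i = b j) ∨
      (a j < a i ∧ b j < b i) := by
    intro i j
    have := h i j
    rcases lt_trichotomy (a i - a j) 0 with h1 | h1 | h1
    · rw [_root_.sign_neg h1, eq_comm, sign_eq_neg_one_iff] at this
      exact Or.inl ⟨by linarith, by linarith⟩
    · rw [h1, _root_.sign_zero, eq_comm, _root_.sign_eq_zero_iff] at this
      exact Or.inr (Or.inl ⟨by linarith, by linarith⟩)
    · rw [_root_.sign_pos h1, eq_comm, sign_eq_one_iff] at this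
      exact Or.inr (Or.inr ⟨by linarith, by linarith⟩)
  have k1 := key 0 1
  have k2 := key 0 2
  have k3 := key 1 2
  simp only [Fin.forall_fin_succ, IsEmpty.forall_iff, Fin.succ_zero_eq_one, Fin.succ_one_eq_two,
    and_true, mid, lo, hi, min_def, max_def]
  grind

theorem sameType_of_sign {A B : Fin 3 → Set (ℝ × ℝ)} (hA : ∀ i, Continuous (supp (A i)))
    (hB : ∀ i, Continuous (supp (B i)))
    (h : ∀ θ i j, SignType.sign (supp (A i) θ - supp (A j) θ) =
      SignType.sign (supp (B i) θ - supp (B j) θ)) : SameType A B := by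
  have cl : ∀ {A : Fin 3 → Set (ℝ × ℝ)}, (∀ i, Continuous (supp (A i))) →
      Continuous (fun θ => lo fun i => supp (A i) θ) ∧
      Continuous (fun θ => mid fun i => supp (A i) θ) ∧
      Continuous (fun θ => hi fun i => supp (A i) θ) := fun {A} hA => by
    have h0 := hA 0
    have h1 := hA 1
    have h2 := hA 2
    unfold mid lo hi
    exact ⟨by fun_prop, by fun_prop, by fun_prop⟩
  have pl : ∀ (A : Fin 3 → Set (ℝ × ℝ)) (F : (Fin 3 → ℝ) → ℝ),
      Per fun θ => F fun i => supp (A i) θ := fun A F θ => by simp only [(per_supp _).add]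
  obtain ⟨a1, a2, a3⟩ := cl hA
  obtain ⟨b1, b2, b3⟩ := cl hB
  have s := fun θ => sorted3 (a := fun i => supp (A i) θ) (b := fun i => supp (B i) θ) (h θ)
  have s' := fun θ => sorted3 (a := fun i => supp (B i) θ) (b := fun i => supp (A i) θ)
    fun i j => (h θ i j).symm
  obtain ⟨Φ₁, f1, e1⟩ := exists_shear ((pl B lo).sub (pl A lo)) (b1.sub a1)
  obtain ⟨Φ₂, f2, e2⟩ := exists_stretch (pl B lo) ((pl A mid).sub (pl A lo))
    ((pl B mid).sub (pl B lo)) b1 (a2.sub a1) (b2.sub b1) (fun θ => sub_nonneg.2 (s θ).1)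
    (fun θ => sub_nonneg.2 (s' θ).1)
    fun θ => by rw [sub_eq_zero, sub_eq_zero]; exact ⟨(s θ).2.2.1, (s' θ).2.2.1⟩
  obtain ⟨Φ₃, f3, e3⟩ := exists_stretch (pl B mid) ((pl A hi).sub (pl A mid))
    ((pl B hi).sub (pl B mid)) b2 (a3.sub a2) (b3.sub b2) (fun θ => sub_nonneg.2 (s θ).2.1)
    (fun θ => sub_nonneg.2 (s' θ).2.1)
    fun θ => by rw [sub_eq_zero, sub_eq_zero]; exact ⟨(s θ).2.2.2.1, (s' θ).2.2.2.1⟩
  have f := (f1.trans f2).trans f3
  have e : ∀ i θ, ((Φ₁.trans Φ₂).trans Φ₃) (θ, supp (A i) θ) = (θ, supp (B i) θ) := by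
    intro i θ
    simp only [Homeomorph.trans_apply, e1, e2, e3, Prod.mk.injEq, true_and]
    obtain ⟨t1, t2, t3, t4, t5⟩ := s θ
    obtain ⟨u1, u2, -⟩ := s' θ
    have w1 := sub_nonneg.2 t1
    have w2 := sub_nonneg.2 t2
    have z1 := fun e => sub_eq_zero.2 (t3 (sub_eq_zero.1 e))
    have z2 := fun e => sub_eq_zero.2 (t4 (sub_eq_zero.1 e))
    rcases t5 i with ⟨v1, v2⟩ | ⟨v1, v2⟩ | ⟨v1, v2⟩
    · rw [stretch_le w1 (by linarith), stretch_le w2 (by linarith)]
      linarith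
    · rw [stretch_ge w1 z1 (by linarith), stretch_le w2 (by linarith)]
      linarith
    · rw [stretch_ge w1 z1 (by linarith), stretch_ge w2 z2 (by linarith)]
      linarith
  refine ⟨_, f.per, fun M => ?_, fun i => ?_⟩
  · obtain ⟨C, hC⟩ := f.bd
    exact ⟨M + C, fun x hx => by linarith [hC x]⟩
  · ext y
    constructor
    · rintro ⟨x, hx, rfl⟩
      rw [show x = (x.1, supp (A i) x.1) from Prod.ext rfl hx, e]
      rfl
    · intro hy
      exact ⟨(y.1, supp (A i) y.1), rfl, (e i y.1).trans (Prod.ext rfl hy.symm)⟩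

end Pool.Agent.MP_14a896_co

end
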