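import Pool.Agent.MP_14a896_co.Defs
import Pool.Agent.Mg.F14a896.G222cb2
import Pool.Agent.MP_14a896_co.Wire

section

/-! From a simple order type to a sorted labelling and crossing times. -/

open Set Real

namespace Pool.Agent.MP_14a896_co

lemma rank_lt {ι : Type} (S : Finset ι) (r : ι → ι → Prop) [DecidableRel r] (irr : ∀ a, ¬ r a a)
    (tr : ∀ a ∈ S, ∀ b ∈ S, ∀ c ∈ S, r a b → r b c → r a c) {a b : ι} (ha : a ∈ S) (hb : b ∈ S)
    (h : r a b) : (S.filter fun x => r x a).card < (S.filter fun x => r x b).card := by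
  refine Finset.card_lt_card ⟨fun x hx => ?_, fun hc => ?_⟩
  · rw [Finset.mem_filter] at hx ⊢
    exact ⟨hx.1, tr x hx.1 a ha b hb hx.2 h⟩
  · exact irr a (Finset.mem_filter.1 (hc (Finset.mem_filter.2 ⟨ha, h⟩))).2

namespace IsSimpleOrderType

variable {n : ℕ} {χ : Fin n → Fin n → Fin n → SignType} (h : IsSimpleOrderType χ)
include h

lemma cyc (i j k : Fin n) : χ j k i = χ i j k := by
  rw [h.swap_right, h.swap_left, neg_neg]

lemma zero₁ (i k : Fin n) : χ i i k = 0 := by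
  have := h.swap_left i i k
  revert this
  generalize χ i i k = s
  revert s
  decide

lemma zero₂ (i k : Fin n) : χ i k k = 0 := by rw [← h.cyc, h.zero₁]

lemma zero₃ (i k : Fin n) : χ i k i = 0 := by rw [h.cyc, h.zero₁]

lemma ne_of {i j k : Fin n} (e : χ i j k = 1) : i ≠ j ∧ i ≠ k ∧ j ≠ k := by
  refine ⟨?_, ?_, ?_⟩ <;> rintro rfl
  · simp [h.zero₁] at e
  · simp [h.zero₃] at e
  · simp [h.zero₂] at e

lemma pm {i j k : Fin n} (h1 : i ≠ j) (h2 : i ≠ k) (h3 : j ≠ k) : χ i j k = 1 ∨ χ i j k = -1 := by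
  have := h.uniform i j k h1 h2 h3
  revert this
  generalize χ i j k = s
  revert s
  decide

lemma total {t a b : Fin n} (h1 : t ≠ a) (h2 : t ≠ b) (h3 : a ≠ b) :
    χ t a b = 1 ∨ χ t b a = 1 :=
  (h.pm h1 h2 h3).imp id fun e => by rw [h.swap_right, e, neg_neg]

lemma trans_of {t a b c : Fin n} (nc : χ t a b = 1 → χ t b c = 1 → χ t c a ≠ 1)
    (h1 : χ t a b = 1) (h2 : χ t b c = 1) : χ t a c = 1 := by
  refine (h.total (h.ne_of h1).1 (h.ne_of h2).2.1 ?_).resolve_right (nc h1 h2)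
  rintro rfl
  rw [h.swap_right, h1] at h2
  exact absurd h2 (by decide)

lemma no_cycle {p q t x y z : Fin n} (ht : χ p q t = -1) (hx : 0 ≤ χ p q x) (hy : 0 ≤ χ p q y)
    (hz : 0 ≤ χ p q z) (h1 : χ t x y = 1) (h2 : χ t y z = 1) : χ t z x ≠ 1 := by
  intro h3
  have h4 : χ x y z = 1 := by
    refine (h.pm (h.ne_of h1).2.2 (h.ne_of h3).2.2.symm (h.ne_of h2).2.2).resolve_right fun e => ?_
    exact h.acyclic ⟨x, y, z, t, by rw [h.cyc, h2], by rw [h.cyc, h.swap_right, h3],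
      by rw [h.cyc, h1], e⟩
  have := h.grassmann_pluecker t p q x y z (by rwa [h2, mul_one, ← h.cyc])
    (by rwa [← h.cyc x, h3, mul_one, ← h.cyc]) (by rwa [h.cyc t, h1, mul_one, ← h.cyc])
  rw [← h.cyc, ht, h4] at this
  exact absurd this (by decide)

lemma no_cycle' {p q x y z : Fin n} (hq : ∀ r, 0 ≤ χ p q r) (hpq : p ≠ q) (h1 : χ p x y = 1)
    (h2 : χ p y z = 1) : χ p z x ≠ 1 := by
  intro h3
  have key : ∀ x y z, χ p x y = 1 → χ p y z = 1 → χ p z x = 1 → q = x := by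
    intro x y z h1 h2 h3
    by_contra hc
    have h4 := h.grassmann_pluecker x p q p z y (by simp [h.zero₁])
      (by rw [h1, mul_one, ← h.cyc]; exact hq _) (by rw [h3, mul_one, ← h.cyc]; exact hq _)
    have h5 := h.uniform p q x hpq (h.ne_of h1).1 hc
    have h6 := hq x
    rw [← h.cyc, h.swap_right p y z, h2] at h4
    revert h4 h5 h6
    generalize χ p q x = s
    revert s
    decide
  exact (h.ne_of h1).2.2 ((key x y z h1 h2 h3).symm.trans (key y z x h2 h3 h1))

lemma exists_edge (S : Finset (Fin n)) (hS : 1 < S.card) :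
    ∃ p q, p ≠ q ∧ ∀ r ∈ S, 0 ≤ χ p q r := by
  suffices key : ∀ S : Finset (Fin n), ∀ p q, p ≠ q → ∃ p q, p ≠ q ∧ ∀ r ∈ S, 0 ≤ χ p q r by
    obtain ⟨p, -, q, -, hpq⟩ := Finset.one_lt_card.1 hS
    exact key S p q hpq
  intro S p₀ q₀ h₀
  induction S using Finset.induction_on with
  | empty => exact ⟨p₀, q₀, h₀, by simp⟩
  | insert t S ht ih =>
    obtain ⟨p, q, hpq, hr⟩ := ih
    by_cases hc : 0 ≤ χ p q t
    · exact ⟨p, q, hpq, by simpa [hc] using hr⟩
    have e : χ p q t = -1 := by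
      revert hc
      generalize χ p q t = s
      revert s
      decide
    have hr' : ∀ r ∈ insert p S, 0 ≤ χ p q r := by simpa [h.zero₃] using hr
    have ht' : ∀ r ∈ insert p S, t ≠ r := by
      rintro r hr rfl
      exact hc (hr' _ hr)
    obtain ⟨u, hu, hm⟩ := (insert p S).exists_min_image
      (fun b => ((insert p S).filter fun x => χ t x b = 1).card) (Finset.insert_nonempty _ _)
    refine ⟨t, u, ht' u hu, fun r hr => ?_⟩
    rcases Finset.mem_insert.1 hr with rfl | hr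
    · rw [h.zero₃]
    rcases eq_or_ne u r with rfl | hur
    · rw [h.zero₂]
    have hr := Finset.mem_insert_of_mem (b := p) hr
    rcases h.total (ht' u hu) (ht' r hr) hur with e' | e'
    · rw [e']; decide
    · refine absurd (hm r hr) (not_le.2 (rank_lt _ (fun a b => χ t a b = 1)
        (fun a => by simp [h.zero₂]) (fun a ha b hb c hc => ?_) hr hu e'))
      exact h.trans_of (h.no_cycle e (hr' a ha) (hr' b hb) (hr' c hc))

lemma gp3 (p a b c d : Fin n) (h1 : 0 ≤ χ p a b * χ p c d) (h2 : 0 ≤ χ p a d * χ p b c) :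
    0 ≤ χ p a c * χ p b d := by
  have := h.grassmann_pluecker c p a p b d (by simp [h.zero₁]) (by rwa [← h.cyc])
    (by rwa [← h.cyc])
  rwa [← h.cyc] at this

set_option synthInstance.maxSize 4000 in
lemma sig {a b c d e : Fin n} (bc : χ a b c = 1) (bd : χ a b d = 1) (be : χ a b e = 1)
    (cd : χ a c d = 1) (ce : χ a c e = 1) (de : χ a d e = 1) :
    (χ b c e ≤ χ b c d ∧ χ b d e ≤ χ b c e ∧ χ c d e ≤ χ b d e) ∨
      (χ b c d ≤ χ b c e ∧ χ b c e ≤ χ b d e ∧ χ b d e ≤ χ c d e) := by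
  have g1 := h.gp3 b a c d e
  have g2 := h.gp3 b a e d c
  have g3 := h.gp3 e a b c d
  have g4 := h.gp3 e a d c b
  have g5 := h.gp3 c a b d e
  have g6 := h.gp3 c a e d b
  rw [h.swap_right b c d, h.swap_right b d e, h.swap_right b c e] at g2
  rw [h.swap_right e b c, h.swap_right e c d, h.swap_right e b d] at g4
  rw [h.swap_right c b d, h.swap_right c d e, h.swap_right c b e] at g6
  rw [h.swap_left a b c, h.swap_left a b d, h.swap_left a b e, bc, bd, be] at g1 g2
  rw [← h.cyc e a b, ← h.cyc e a c, ← h.cyc e a d, ← h.cyc e c d, ← h.cyc e b d, ← h.cyc e b c,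
    be, ce, de] at g3 g4
  rw [← h.cyc c a b, h.swap_left a c d, h.swap_left a c e, h.swap_left b c d, h.swap_left b c e,
    bc, cd, ce] at g5 g6
  have n1 := h.uniform b c d (h.ne_of bc).2.2 (h.ne_of bd).2.2 (h.ne_of cd).2.2
  have n2 := h.uniform b c e (h.ne_of bc).2.2 (h.ne_of be).2.2 (h.ne_of ce).2.2
  have n3 := h.uniform b d e (h.ne_of bd).2.2 (h.ne_of be).2.2 (h.ne_of de).2.2
  have n4 := h.uniform c d e (h.ne_of cd).2.2 (h.ne_of ce).2.2 (h.ne_of de).2.2
  revert g1 g2 g3 g4 g5 g6 n1 n2 n3 n4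
  generalize χ b c d = s₁
  generalize χ b c e = s₂
  generalize χ b d e = s₃
  generalize χ c d e = s₄
  revert s₁ s₂ s₃ s₄
  decide

/-- A labelling in which the order type is a signotope. -/
lemma exists_rank (hn : 1 < n) : ∃ ρ : Fin n → ℕ, ρ.Injective ∧ ∀ b c d e, ρ b < ρ c → ρ c < ρ d →
    ρ d < ρ e → (χ b c e ≤ χ b c d ∧ χ b d e ≤ χ b c e ∧ χ c d e ≤ χ b d e) ∨
      (χ b c d ≤ χ b c e ∧ χ b c e ≤ χ b d e ∧ χ b d e ≤ χ c d e) := by
  obtain ⟨p, q, hpq, hq⟩ := h.exists_edge Finset.univ (by simpa using hn)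
  let r : Fin n → Fin n → Prop := fun a b => (a = p ∧ b ≠ p) ∨ χ p a b = 1
  have irr : ∀ a, ¬ r a a := fun a => by simp [r, h.zero₂]
  have tr : ∀ a b c, r a b → r b c → r a c := by
    rintro a b c (h1 | h1) (h2 | h2)
    · exact absurd h2.1 h1.2
    · exact Or.inl ⟨h1.1, (h.ne_of h2).2.1.symm⟩
    · exact absurd h2.1 (h.ne_of h1).2.1.symm
    · exact Or.inr (h.trans_of (h.no_cycle' (fun r => hq r (Finset.mem_univ _)) hpq) h1 h2)
  have tot : ∀ a b, a ≠ b → r a b ∨ r b a := fun a b hab => by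
    rcases eq_or_ne p a with rfl | ha
    · exact Or.inl (Or.inl ⟨rfl, hab.symm⟩)
    rcases eq_or_ne p b with rfl | hb
    · exact Or.inr (Or.inl ⟨rfl, hab⟩)
    exact (h.total ha hb hab).imp Or.inr Or.inr
  let ρ : Fin n → ℕ := fun b => (Finset.univ.filter fun x => r x b).card
  have lt : ∀ a b, r a b → ρ a < ρ b := fun a b hab =>
    rank_lt _ r irr (fun a _ b _ c _ => tr a b c) (Finset.mem_univ _) (Finset.mem_univ _) hab
  have lt' : ∀ a b, ρ a < ρ b → r a b := fun a b hab =>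
    (tot a b (by rintro rfl; exact hab.false)).resolve_right fun h' => (lt b a h').not_gt hab
  refine ⟨ρ, fun a b e => ?_, fun b c d e bc cd de => ?_⟩
  · by_contra hab
    rcases tot a b hab with h' | h'
    · exact (lt _ _ h').ne e
    · exact (lt _ _ h').ne' e
  have k : ∀ x y, x ≠ p → ρ x < ρ y → χ p x y = 1 := fun x y hx hxy =>
    (lt' x y hxy).resolve_left fun h' => hx h'.1
  have np : ∀ x y, ρ x < ρ y → y ≠ p := fun x y hxy => by
    rcases lt' x y hxy with h' | h'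
    · exact h'.2
    · exact (h.ne_of h').2.1.symm
  have c' := np _ _ bc
  have d' := np _ _ cd
  rcases eq_or_ne b p with rfl | b'
  · rw [k c d c' cd, k c e c' (cd.trans de), k d e d' de]
    exact Or.inl ⟨le_rfl, le_rfl, SignType.le_one _⟩
  · exact h.sig (k b c b' bc) (k b d b' (bc.trans cd)) (k b e b' (bc.trans (cd.trans de)))
      (k c d c' cd) (k c e c' (cd.trans de)) (k d e d' de)

end IsSimpleOrderType

section time

variable {ι : Type} [Fintype ι] {ρ : ι → ℕ}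

/-- Lexicographic weight. -/
noncomputable def lexw (ρ : ι → ℕ) (u : ι → ℝ) : ℝ := ∑ m, u m * 2 ^ ρ m

lemma lexw_lt (hρ : ρ.Injective) {u v : ι → ℝ} (k : ι) (h1 : ∀ m, ρ k < ρ m → u m ≤ v m)
    (h2 : u k + 1 ≤ v k) (h3 : ∀ m, ρ m < ρ k → u m ≤ v m + 1) : lexw ρ u + 1 ≤ lexw ρ v := by
  classical
  have a1 : ∑ m ∈ Finset.univ.filter (fun m => ρ m < ρ k), 2 ^ ρ m < 2 ^ ρ k := by
    rw [← Finset.sum_image (f := fun r => 2 ^ r) (g := ρ) fun a _ b _ e => hρ e]
    exact Nat.geomSum_lt le_rfl (by simp)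
  have a2 : ∑ m ∈ Finset.univ.filter (fun m => ρ m < ρ k), (2 : ℝ) ^ ρ m + 1 ≤ 2 ^ ρ k := by
    exact_mod_cast a1
  have a3 : ∑ m, (u m * 2 ^ ρ m + if m = k then (2 : ℝ) ^ ρ m else 0) ≤
      ∑ m, (v m * 2 ^ ρ m + if ρ m < ρ k then (2 : ℝ) ^ ρ m else 0) := by
    refine Finset.sum_le_sum fun m _ => ?_
    have p : (0 : ℝ) < 2 ^ ρ m := by positivity
    rcases lt_trichotomy (ρ m) (ρ k) with h | h | h
    · rw [if_pos h, if_neg (by rintro rfl; exact h.false)]
      nlinarith [h3 m h]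
    · obtain rfl := hρ h
      rw [if_pos rfl, if_neg h.not_lt]
      nlinarith
    · rw [if_neg h.not_gt, if_neg (by rintro rfl; exact h.false)]
      nlinarith [h1 m h]
  rw [Finset.sum_add_distrib, Finset.sum_add_distrib, ← Finset.sum_filter (fun m => ρ m < ρ k),
    Finset.sum_ite_eq'] at a3
  simp only [Finset.mem_univ, if_true] at a3
  unfold lexw
  linarith

lemma lexw_le {u v : ι → ℝ} (h : ∀ m, u m ≤ v m) : lexw ρ u ≤ lexw ρ v :=
  Finset.sum_le_sum fun m _ => mul_le_mul_of_nonneg_right (h m) (by positivity)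

lemma lexw_neg (u : ι → ℝ) : lexw ρ (fun m => -u m) = -lexw ρ u := by simp [lexw]

/-- The crossing time of `i` and `j`. -/
noncomputable def time (ρ : ι → ℕ) (σ : ι → ι → ι → ℝ) (i j : ι) : ℝ :=
  (2 * lexw ρ (fun _ => 1) + 1) * lexw ρ (fun m => if ρ j < ρ m then -σ i j m else 0) +
    lexw ρ fun m => if ρ i < ρ m ∧ ρ m < ρ j then -σ i m j else 0

lemma time_neg (σ : ι → ι → ι → ℝ) (i j : ι) :
    time ρ (fun i j k => -σ i j k) i j = -time ρ σ i j := by
  simp only [time, neg_add, ← mul_neg, ← lexw_neg, apply_ite (fun x : ℝ => -x), neg_zero]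

lemma time_lt (hρ : ρ.Injective) {σ : ι → ι → ι → ℝ} (b1 : ∀ i j k, σ i j k ≤ 1)
    (b2 : ∀ i j k, -1 ≤ σ i j k) (hσ : ∀ b c d e, ρ b < ρ c → ρ c < ρ d → ρ d < ρ e →
      (σ b c e ≤ σ b c d ∧ σ b d e ≤ σ b c e ∧ σ c d e ≤ σ b d e) ∨
      (σ b c d ≤ σ b c e ∧ σ b c e ≤ σ b d e ∧ σ b d e ≤ σ c d e))
    {i j k : ι} (ij : ρ i < ρ j) (jk : ρ j < ρ k) (e : σ i j k = 1) :
    time ρ σ i j < time ρ σ i k ∧ time ρ σ i k < time ρ σ j k := by
  have r1 : ∀ i j, lexw ρ (fun m => if ρ i < ρ m ∧ ρ m < ρ j then -σ i m j else 0) ≤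
      lexw ρ (fun _ => 1) := fun i j => lexw_le fun m => by
    split_ifs
    · linarith [b2 i m j]
    · exact zero_le_one
  have r2 : ∀ i j, -lexw ρ (fun _ => 1) ≤
      lexw ρ (fun m => if ρ i < ρ m ∧ ρ m < ρ j then -σ i m j else 0) := fun i j => by
    rw [← lexw_neg]
    refine lexw_le fun m => ?_
    split_ifs
    · linarith [b1 i m j]
    · norm_num
  have r3 : 0 ≤ lexw ρ fun _ => 1 := by linarith [r1 i i, r2 i i]
  have u1 : lexw ρ (fun m => if ρ j < ρ m then -σ i j m else 0) + 1 ≤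
      lexw ρ fun m => if ρ k < ρ m then -σ i k m else 0 := by
    refine lexw_lt hρ k (fun m hm => ?_) ?_ fun m hm => ?_
    · rw [if_pos hm, if_pos (jk.trans hm)]
      rcases hσ i j k m ij jk hm with h | h
      · linarith [h.2.1]
      · linarith [h.1, b1 i k m]
    · rw [if_pos jk, if_neg (lt_irrefl _), e]
      norm_num
    · rw [if_neg hm.not_gt]
      split_ifs
      · linarith [b2 i j m]
      · norm_num
  have u2 : lexw ρ (fun m => if ρ k < ρ m then -σ i k m else 0) ≤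
      lexw ρ fun m => if ρ k < ρ m then -σ j k m else 0 := lexw_le fun m => by
    split_ifs with hm
    · rcases hσ i j k m ij jk hm with h | h
      · linarith [h.2.2]
      · linarith [h.1, h.2.1, b1 j k m]
    · rfl
  have u3 : lexw ρ (fun m => if ρ i < ρ m ∧ ρ m < ρ k then -σ i m k else 0) + 1 ≤
      lexw ρ fun m => if ρ j < ρ m ∧ ρ m < ρ k then -σ j m k else 0 := by
    refine lexw_lt hρ j (fun m hm => ?_) ?_ fun m hm => ?_
    · by_cases hk : ρ m < ρ k
      · rw [if_pos ⟨ij.trans hm, hk⟩, if_pos ⟨hm, hk⟩]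
        rcases hσ i j m k ij hm hk with h | h
        · linarith [h.2.2]
        · linarith [h.2.1, b1 j m k]
      · simp [hk]
    · rw [if_pos ⟨ij, jk⟩, if_neg fun h => h.1.false, e]
      norm_num
    · rw [if_neg (c := ρ j < ρ m ∧ _) fun h => hm.not_gt h.1]
      split_ifs
      · linarith [b2 i m k]
      · norm_num
  unfold time
  constructor
  · nlinarith [r1 i j, r2 i k]
  · nlinarith

end time

/-- Labels in `(-1, 1)` and crossing times that encode the order type. -/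
theorem IsSimpleOrderType.exists_time {n : ℕ} {χ : Fin n → Fin n → Fin n → SignType}
    (h : IsSimpleOrderType χ) (hn : 1 < n) : ∃ (c : Fin n → ℝ) (T : Sym2 (Fin n) → ℝ),
    c.Injective ∧ (∀ i, |c i| < 1) ∧ ∀ i j k, c i < c j → c j < c k →
      (χ i j k = 1 ∧ T s(i, j) < T s(i, k) ∧ T s(i, k) < T s(j, k)) ∨
      (χ i j k = -1 ∧ T s(j, k) < T s(i, k) ∧ T s(i, k) < T s(i, j)) := by
  obtain ⟨ρ, hρ, hs⟩ := h.exists_rank hn
  let σ : Fin n → Fin n → Fin n → ℝ := fun i j k => χ i j k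
  have m : ∀ {s t : SignType}, s ≤ t → (s : ℝ) ≤ t := by
    intro s t hst
    cases s <;> cases t <;> first | exact absurd hst (by decide) | simp
  have b1 : ∀ i j k, σ i j k ≤ 1 := fun i j k => by simpa using m (SignType.le_one (χ i j k))
  have b2 : ∀ i j k, -1 ≤ σ i j k := fun i j k => by simpa using m (SignType.neg_one_le (χ i j k))
  let t : Fin n → Fin n → ℝ := fun i j => if ρ i < ρ j then time ρ σ i j else 0
  have lt : ∀ i j, -1 / ((ρ i : ℝ) + 2) < -1 / ((ρ j : ℝ) + 2) → ρ i < ρ j := fun i j hij => by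
    rw [div_lt_div_iff₀ (by positivity) (by positivity)] at hij
    exact_mod_cast (by linarith : (ρ i : ℝ) < ρ j)
  refine ⟨fun i => -1 / ((ρ i : ℝ) + 2), Sym2.lift ⟨fun i j => t i j + t j i, fun _ _ => add_comm _ _⟩,
    fun i j e => hρ ?_, fun i => ?_, fun i j k ij jk => ?_⟩
  · simp only at e
    rw [div_eq_div_iff (by positivity) (by positivity)] at e
    exact_mod_cast (by linarith : (ρ i : ℝ) = ρ j)
  · rw [abs_div, abs_neg, abs_one, abs_of_pos (by positivity), div_lt_one (by positivity)]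
    linarith [(ρ i).cast_nonneg (α := ℝ)]
  replace ij := lt _ _ ij
  replace jk := lt _ _ jk
  have ik := ij.trans jk
  simp only [Sym2.lift_mk, t, if_pos ij, if_pos jk, if_pos ik, if_neg ij.not_gt, if_neg jk.not_gt,
    if_neg ik.not_gt, add_zero]
  have ne : ∀ {i j}, ρ i < ρ j → i ≠ j := by rintro i j hij rfl; exact hij.false
  refine (h.pm (ne ij) (ne ik) (ne jk)).imp (fun e => ⟨e, ?_⟩) fun e => ⟨e, ?_⟩
  · exact time_lt hρ b1 b2 (fun b c d e bc cd de => (hs b c d e bc cd de).imp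
      (fun h => ⟨m h.1, m h.2.1, m h.2.2⟩) fun h => ⟨m h.1, m h.2.1, m h.2.2⟩) ij jk
      (by simp [σ, e])
  · have := time_lt (σ := fun i j k => -σ i j k) hρ (fun i j k => by linarith [b2 i j k])
      (fun i j k => by linarith [b1 i j k]) (fun b c d e bc cd de => (hs b c d e bc cd de).symm.imp
        (fun h => ⟨neg_le_neg (m h.1), neg_le_neg (m h.2.1), neg_le_neg (m h.2.2)⟩)
        fun h => ⟨neg_le_neg (m h.1), neg_le_neg (m h.2.1), neg_le_neg (m h.2.2)⟩) ij jk
      (by simp [σ, e])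
    simp only [time_neg, neg_lt_neg_iff] at this
    exact this.symm

end Pool.Agent.MP_14a896_co

end

section

/-! Every simple order type on `n` elements is realized by `(n + 5)`-gons. -/

open Set Real

namespace Pool.Agent.MP_14a896_co

/-- The polygon whose lower boundary is dual to `U` and whose upper boundary is dual to `W`. -/
noncomputable def body (U W : Finset (ℝ × ℝ)) (M : ℝ) : Finset (ℝ × ℝ) :=
  U.image (fun l => (l.1, -l.2 - M)) ∪ W.image fun l => (-l.1, l.2 + M)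

section body

variable {U W : Finset (ℝ × ℝ)} {M : ℝ} {f : ℝ → ℝ} {θ : ℝ}

lemma hull_le {V : Finset (ℝ × ℝ)} {α β γ : ℝ} (h : ∀ p ∈ V, α * p.1 + β * p.2 ≤ γ) :
    ∀ p ∈ convexHull ℝ (V : Set (ℝ × ℝ)), α * p.1 + β * p.2 ≤ γ := by
  refine convexHull_min h (convex_halfSpace_le (f := fun p : ℝ × ℝ => α * p.1 + β * p.2)
    ⟨fun p q => ?_, fun c p => ?_⟩ γ)
  · simp; ring
  · simp; ring

lemma body_low (hU : Env U f) (dom : ∀ l ∈ W, ∀ y, -l.1 * y - l.2 - M ≤ f y + M) (y : ℝ) :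
    ∀ p ∈ convexHull ℝ (body U W M : Set (ℝ × ℝ)), y * p.1 + -1 * p.2 ≤ f y + M := by
  refine hull_le fun p hp => ?_
  simp only [body, Finset.mem_union, Finset.mem_image] at hp
  rcases hp with ⟨l, hl, rfl⟩ | ⟨l, hl, rfl⟩
  · linarith [hU.1 l hl y]
  · linarith [dom l hl y]

lemma body_up (hW : Env W f) (dom : ∀ l ∈ U, ∀ y, -l.1 * y - l.2 - M ≤ f y + M) (y : ℝ) :
    ∀ p ∈ convexHull ℝ (body U W M : Set (ℝ × ℝ)), -y * p.1 + 1 * p.2 ≤ f y + M := by
  refine hull_le fun p hp => ?_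
  simp only [body, Finset.mem_union, Finset.mem_image] at hp
  rcases hp with ⟨l, hl, rfl⟩ | ⟨l, hl, rfl⟩
  · linarith [dom l hl y]
  · linarith [hW.1 l hl y]

lemma ip_eq (h : sin θ ≠ 0) (p : ℝ × ℝ) :
    ip θ p = -sin θ * (-cos θ / sin θ * p.1 + -1 * p.2) := by
  unfold ip
  field_simp
  ring

lemma supp_low (hU : Env U f) (dom : ∀ l ∈ W, ∀ y, -l.1 * y - l.2 - M ≤ f y + M)
    (hθ : sin θ < 0) : supp (convexHull ℝ (body U W M : Set (ℝ × ℝ))) θ =
      -sin θ * (f (-cos θ / sin θ) + M) := by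
  refine Supports.eq ⟨fun p hp => ?_, ?_⟩
  · rw [ip_eq hθ.ne]
    exact mul_le_mul_of_nonneg_left (body_low hU dom _ p hp) (by linarith)
  · obtain ⟨l, hl, e⟩ := hU.2 (-cos θ / sin θ)
    refine ⟨(l.1, -l.2 - M), subset_convexHull _ _
      (Finset.mem_union_left _ (Finset.mem_image_of_mem _ hl)), ?_⟩
    rw [ip_eq hθ.ne, e]
    ring

lemma supp_up (hW : Env W f) (dom : ∀ l ∈ U, ∀ y, -l.1 * y - l.2 - M ≤ f y + M)
    (hθ : 0 < sin θ) : supp (convexHull ℝ (body U W M : Set (ℝ × ℝ))) θ =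
      sin θ * (f (-cos θ / sin θ) + M) := by
  refine Supports.eq ⟨fun p hp => ?_, ?_⟩
  · rw [ip_eq hθ.ne']
    nlinarith [body_up hW dom (-cos θ / sin θ) p hp]
  · obtain ⟨l, hl, e⟩ := hW.2 (-cos θ / sin θ)
    refine ⟨(-l.1, l.2 + M), subset_convexHull _ _
      (Finset.mem_union_right _ (Finset.mem_image_of_mem _ hl)), ?_⟩
    rw [ip_eq hθ.ne', e]
    ring

lemma supp_flat {c : ℝ} (hU : ∀ l ∈ U, -2 + c ≤ l.1 ∧ l.1 ≤ 2 + c)
    (hW : ∀ l ∈ W, -2 + -c ≤ l.1 ∧ l.1 ≤ 2 + -c) (h1 : ∃ b, (-2 + c, b) ∈ U)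
    (h2 : ∃ b, (2 + c, b) ∈ U) (hθ : sin θ = 0) :
    supp (convexHull ℝ (body U W M : Set (ℝ × ℝ))) θ = 2 + cos θ * c := by
  have k : ∀ p ∈ body U W M, -2 + c ≤ p.1 ∧ p.1 ≤ 2 + c := fun p hp => by
    simp only [body, Finset.mem_union, Finset.mem_image] at hp
    rcases hp with ⟨l, hl, rfl⟩ | ⟨l, hl, rfl⟩
    · exact hU l hl
    · constructor <;> linarith [hW l hl]
  obtain ⟨b₁, h1⟩ := h1
  obtain ⟨b₂, h2⟩ := h2
  rcases sin_eq_zero_iff_cos_eq.1 hθ with e | e
  · refine (supports_hull (fun p hp => ?_)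
      ⟨_, Finset.mem_union_left _ (Finset.mem_image_of_mem _ h2), ?_⟩).eq
    · simpa [ip, hθ, e] using (k p hp).2
    · simp [ip, hθ, e]
  · refine (supports_hull (fun p hp => ?_)
      ⟨_, Finset.mem_union_left _ (Finset.mem_image_of_mem _ h1), ?_⟩).eq
    · simp only [ip, hθ, e]
      linarith [(k p hp).1]
    · simp only [ip, hθ, e]
      ring

end body

lemma finite_zeros (t : ℝ) : {θ | θ ∈ Ico 0 (2 * π) ∧ cos θ + t * sin θ = 0}.Finite := by
  obtain ⟨α, β, h⟩ := exists_cr_ip (v := (1, t)) (by simp)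
  obtain ⟨z, h1, h2⟩ := exists_shift (-(2 * π)) α
  have k := h.shift (per_ip _) z
  generalize α + z * (2 * π) = α' at *
  generalize β + z * (2 * π) = β' at *
  refine (Set.toFinite {α', β', α' + 2 * π, β' + 2 * π}).subset ?_
  rintro θ ⟨⟨h3, h4⟩, h5⟩
  have h6 : ip θ (1, t) = 0 := by rw [← h5, ip]; ring
  simp only [mem_insert_iff, mem_singleton_iff]
  rcases lt_or_ge θ (α' + 2 * π) with h7 | h7
  · have := k.zero (by linarith) h7 h6
    tauto
  · have := k.zero (θ := θ - 2 * π) (by linarith) (by linarith) (((per_ip _).sub' θ).trans h6)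
    simp only [sub_eq_iff_eq_add] at this
    tauto

lemma sort3 {ι : Type} {c : ι → ℝ} (hc : c.Injective) {P : ι → ι → ι → Prop}
    (s1 : ∀ i j k, P i j k → P j i k) (s2 : ∀ i j k, P i j k → P i k j)
    (h : ∀ i j k, c i < c j → c j < c k → P i j k) {i j k : ι} (ij : i ≠ j) (ik : i ≠ k)
    (jk : j ≠ k) : P i j k := by
  rcases (hc.ne ij).lt_or_gt with h1 | h1 <;> rcases (hc.ne ik).lt_or_gt with h2 | h2 <;>
    rcases (hc.ne jk).lt_or_gt with h3 | h3
  · exact h _ _ _ h1 h3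
  · exact s2 _ _ _ (h _ _ _ h2 h3)
  · exact absurd (h1.trans h3) h2.not_gt
  · exact s2 _ _ _ (s1 _ _ _ (h _ _ _ h2 h1))
  · exact s1 _ _ _ (h _ _ _ h1 h2)
  · exact absurd (h2.trans h3) h1.not_gt
  · exact s1 _ _ _ (s2 _ _ _ (h _ _ _ h3 h2))
  · exact s1 _ _ _ (s2 _ _ _ (s1 _ _ _ (h _ _ _ h3 h1)))

lemma SameType.swap' {A B C A' B' C' : Set (ℝ × ℝ)} (h : SameType ![A, B, C] ![A', B', C']) :
    SameType ![B, A, C] ![B', A', C'] := by
  obtain ⟨Φ, h1, h2, h3⟩ := h
  refine ⟨Φ, h1, h2, fun i => ?_⟩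
  fin_cases i
  · exact h3 1
  · exact h3 0
  · exact h3 2

lemma sameType_of_three {A B C : Set (ℝ × ℝ)} {p q r : ℝ × ℝ} (hA : Continuous (supp A))
    (hB : Continuous (supp B)) (hC : Continuous (supp C))
    (h1 : ∀ θ, SignType.sign (supp B θ - supp A θ) = SignType.sign (ip θ q - ip θ p))
    (h2 : ∀ θ, SignType.sign (supp C θ - supp A θ) = SignType.sign (ip θ r - ip θ p))
    (h3 : ∀ θ, SignType.sign (supp C θ - supp B θ) = SignType.sign (ip θ r - ip θ q)) :
    SameType ![A, B, C] ![{p}, {q}, {r}] := by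
  have k : ∀ {a b c d : ℝ}, SignType.sign (a - b) = SignType.sign (c - d) →
      SignType.sign (b - a) = SignType.sign (d - c) := fun h => by
    rw [← neg_sub, Left.sign_neg, h, ← Left.sign_neg, neg_sub]
  refine sameType_of_sign (fun i => by fin_cases i <;> assumption)
    (fun i => by fin_cases i <;> exact continuous_supp_singleton _) fun θ i j => ?_
  have := k (h1 θ)
  have := k (h2 θ)
  have := k (h3 θ)
  fin_cases i <;> fin_cases j <;> simp [supp_singleton, *]

lemma exists_model {x y z : ℝ} (h : (x < y ∧ y < z) ∨ (z < y ∧ y < x)) : ∃ p q r : ℝ × ℝ,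
    SignType.sign (det3 p q r) = SignType.sign (z - x) ∧
    (∀ θ, SignType.sign (cos θ + x * sin θ) = SignType.sign (ip θ q - ip θ p)) ∧
    (∀ θ, SignType.sign (cos θ + y * sin θ) = SignType.sign (ip θ r - ip θ p)) ∧
    ∀ θ, SignType.sign (cos θ + z * sin θ) = SignType.sign (ip θ r - ip θ q) := by
  obtain ⟨a, b, ha, hb, e⟩ : ∃ a b : ℝ, 0 < a ∧ 0 < b ∧ a * x + b * z = (a + b) * y := by
    rcases h with h | h
    · exact ⟨z - y, y - x, by linarith, by linarith, by ring⟩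
    · exact ⟨y - z, x - y, by linarith, by linarith, by ring⟩
  have k : ∀ {a u v : ℝ}, 0 < a → v = a * u → SignType.sign u = SignType.sign v := fun h e => by
    rw [e, sign_mul, _root_.sign_pos h, one_mul]
  refine ⟨(0, 0), (a, a * x), (a + b, a * x + b * z), (k (mul_pos ha hb) ?_).symm,
    fun θ => k ha ?_, fun θ => k (add_pos ha hb) ?_, fun θ => k hb ?_⟩
  · simp only [det3]; ring
  · simp only [ip]; ring
  · simp only [ip, e]; ring
  · simp only [ip]; ring

lemma Wire.dom {ι : Type} [Fintype ι] [DecidableEq ι] {c : ι → ℝ} {t : Sym2 ι → ℝ}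
    {f : ι → ℝ → ℝ} {U : ι → Finset (ℝ × ℝ)} (h : Wire c t f U) {i : ι} {M : ℝ}
    (hM : ∀ l ∈ U i, -M ≤ l.2) {l : ℝ × ℝ} (h1 : -2 + -c i ≤ l.1 ∧ l.1 ≤ 2 + -c i)
    (h2 : -M ≤ l.2) (y : ℝ) : -l.1 * y - l.2 - M ≤ f i y + M := by
  obtain ⟨b₁, k1⟩ := h.left i
  obtain ⟨b₂, k2⟩ := h.right i
  have := (h.env i).1 _ k1 y
  have := (h.env i).1 _ k2 y
  have := hM _ k1
  have := hM _ k2
  rcases le_total y 0 with hy | hy <;> nlinarith [h1.1, h1.2]

theorem suffices_upper {n : ℕ} (hn : 1 < n) : Suffices n (n + 5) := by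
  intro χ hχ
  obtain ⟨c, T, hc, hc', hT⟩ := hχ.exists_time hn
  obtain ⟨t, ht, ⟨f, U, hf⟩, g, W, hg⟩ := exists_wire (T := T) hc hc'
    fun i j k ij jk => (hT i j k ij jk).imp And.right And.right
  obtain ⟨m, hm⟩ :=
    ((Finset.univ.biUnion fun i => U i ∪ W i).finite_toSet.image Prod.snd).bddBelow
  have m1 : ∀ i, ∀ l ∈ U i, - -m ≤ l.2 := fun i l hl =>
    (neg_neg m).trans_le (hm ⟨l, by simpa using ⟨i, Or.inl hl⟩, rfl⟩)
  have m2 : ∀ i, ∀ l ∈ W i, - -m ≤ l.2 := fun i l hl =>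
    (neg_neg m).trans_le (hm ⟨l, by simpa using ⟨i, Or.inr hl⟩, rfl⟩)
  generalize -m = M at m1 m2
  have d1 : ∀ i, ∀ l ∈ W i, ∀ y, -l.1 * y - l.2 - M ≤ f i y + M := fun i l hl =>
    hf.dom (m1 i) (hg.rng i l hl) (m2 i l hl)
  have d2 : ∀ i, ∀ l ∈ U i, ∀ y, -l.1 * y - l.2 - M ≤ g i y + M := fun i l hl =>
    hg.dom (m2 i) (by simpa using hf.rng i l hl) (m1 i l hl)
  obtain ⟨A, hA⟩ : ∃ A : Fin n → Set (ℝ × ℝ),
      ∀ i, A i = convexHull ℝ (body (U i) (W i) M : Set (ℝ × ℝ)) := ⟨_, fun _ => rfl⟩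
  have ne : ∀ i, (body (U i) (W i) M).Nonempty := fun i => by
    obtain ⟨b, hb⟩ := hf.left i
    exact ⟨_, Finset.mem_union_left _ (Finset.mem_image_of_mem _ hb)⟩
  have cont : ∀ i, Continuous (supp (A i)) := fun i => hA i ▸ continuous_supp_hull (ne i)
  have s1 : ∀ i θ, sin θ < 0 → supp (A i) θ = -sin θ * (f i (-cos θ / sin θ) + M) :=
    fun i θ hθ => hA i ▸ supp_low (hf.env i) (d1 i) hθ
  have s2 : ∀ i θ, 0 < sin θ → supp (A i) θ = sin θ * (g i (-cos θ / sin θ) + M) :=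
    fun i θ hθ => hA i ▸ supp_up (hg.env i) (d2 i) hθ
  have sg : ∀ a b, c a < c b → ∀ θ, SignType.sign (supp (A b) θ - supp (A a) θ) =
      SignType.sign (cos θ + t s(a, b) * sin θ) := by
    intro a b hab θ
    rcases lt_trichotomy (sin θ) 0 with hθ | hθ | hθ
    · have e : cos θ + t s(a, b) * sin θ = -sin θ * (-cos θ / sin θ - t s(a, b)) := by
        have := hθ.ne
        field_simp
        ring
      rw [s1 _ _ hθ, s1 _ _ hθ, ← mul_sub, add_sub_add_right_eq_sub, e, sign_mul, sign_mul,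
        hf.sgn a b hab]
    · rw [hA, hA, supp_flat (hf.rng a) (hg.rng a) (hf.left a) (hf.right a) hθ,
        supp_flat (hf.rng b) (hg.rng b) (hf.left b) (hf.right b) hθ, add_sub_add_left_eq_sub,
        ← mul_sub, sign_mul, _root_.sign_pos (sub_pos.2 hab), hθ]
      simp
    · have e : cos θ + t s(a, b) * sin θ = sin θ * -(-cos θ / sin θ - t s(b, a)) := by
        have := hθ.ne'
        rw [Sym2.eq_swap]
        field_simp
        ring
      rw [s2 _ _ hθ, s2 _ _ hθ, ← mul_sub, add_sub_add_right_eq_sub, e, sign_mul, sign_mul,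
        Left.sign_neg, ← hg.sgn b a (neg_lt_neg hab), ← Left.sign_neg, neg_sub]
  have z : ∀ a b, c a < c b → ∀ θ τ, Supports (A a) θ τ → Supports (A b) θ τ →
      cos θ + t s(a, b) * sin θ = 0 := fun a b hab θ τ h1 h2 => by
    rw [← _root_.sign_eq_zero_iff, ← sg a b hab, h1.eq, h2.eq, sub_self, _root_.sign_zero]
  have nd : ∀ {a b}, c a < c b → ¬ s(a, b).IsDiag := by
    intro a b hab e
    rw [Sym2.mk_isDiag_iff.1 e] at hab
    exact hab.false
  have hT' : ∀ i j k, c i < c j → c j < c k →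
      (χ i j k = 1 ∧ t s(i, j) < t s(i, k) ∧ t s(i, k) < t s(j, k)) ∨
      (χ i j k = -1 ∧ t s(j, k) < t s(i, k) ∧ t s(i, k) < t s(i, j)) := fun i j k ij jk =>
    have ik := ij.trans jk
    (hT i j k ij jk).imp
      (fun h => ⟨h.1, ht _ _ (nd ij) (nd ik) h.2.1, ht _ _ (nd ik) (nd jk) h.2.2⟩)
      fun h => ⟨h.1, ht _ _ (nd jk) (nd ik) h.2.1, ht _ _ (nd ik) (nd ij) h.2.2⟩
  have sz : ∀ {τ θ : ℝ}, cos θ + τ * sin θ = 0 → sin θ ≠ 0 := fun {τ θ} h e => by
    have := sin_sq_add_cos_sq θ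
    rw [e, mul_zero, add_zero] at h
    rw [e, h] at this
    norm_num at this
  have pair : ∀ a b, c a < c b → ∀ θ τ, Supports (A a) θ τ → Supports (A b) θ τ →
      ∀ p ∈ A a, p ∈ A b → ip θ p ≠ τ := by
    intro a b hab θ τ h1 h2 p pa pb e
    have h3 := z a b hab θ τ h1 h2
    have h4 := sz h3
    have h5 : -cos θ / sin θ = t s(a, b) := by
      field_simp
      linarith
    rw [ip_eq h4, h5] at e
    rw [hA] at pa pb
    rcases h4.lt_or_gt with hθ | hθ
    · have := hf.loc a b hab p.1 (-p.2 - M)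
        (fun y => by linarith [body_low (hf.env a) (d1 a) y p pa])
        fun y => by linarith [body_low (hf.env b) (d1 b) y p pb]
      rw [← h1.eq, s1 _ _ hθ, h5] at e
      nlinarith
    · have := hg.loc b a (neg_lt_neg hab) (-p.1) (p.2 - M)
        (fun y => by linarith [body_up (hg.env b) (d2 b) y p pb])
        fun y => by linarith [body_up (hg.env a) (d2 a) y p pa]
      rw [Sym2.eq_swap] at this
      rw [← h2.eq, s2 _ _ hθ, h5] at e
      nlinarith
  have model : ∀ {i j k}, i ≠ j → i ≠ k → j ≠ k → ∃ p q r, χ i j k = SignType.sign (det3 p q r) ∧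
      SameType ![A i, A j, A k] ![{p}, {q}, {r}] := by
    intro i j k
    refine sort3 hc (P := fun i j k => ∃ p q r, χ i j k = SignType.sign (det3 p q r) ∧
      SameType ![A i, A j, A k] ![{p}, {q}, {r}]) ?_ ?_ fun i j k ij jk => ?_
    · rintro i j k ⟨p, q, r, h1, h2⟩
      refine ⟨q, p, r, ?_, h2.swap'⟩
      rw [hχ.swap_left, h1, ← Left.sign_neg]
      congr 1
      simp only [det3]
      ring
    · rintro i j k ⟨p, q, r, h1, h2⟩
      exact ⟨p, r, q, by rw [hχ.swap_right, h1, det3_swap p q r, Left.sign_neg], h2.swap⟩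
    have k0 := hT' i j k ij jk
    obtain ⟨p, q, r, k1, k2, k3, k4⟩ := exists_model (k0.imp And.right And.right)
    refine ⟨p, q, r, ?_, sameType_of_three (cont _) (cont _) (cont _)
      (fun θ => (sg _ _ ij θ).trans (k2 θ)) (fun θ => (sg _ _ (ij.trans jk) θ).trans (k3 θ))
      fun θ => (sg _ _ jk θ).trans (k4 θ)⟩
    rcases k0 with h | h
    · rw [k1, h.1, _root_.sign_pos (by linarith [h.2.1, h.2.2])]
    · rw [k1, h.1, _root_.sign_neg (by linarith [h.2.1, h.2.2])]
  have dz : ∀ {i j k p q r}, i ≠ j → i ≠ k → j ≠ k → χ i j k = SignType.sign (det3 p q r) →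
      det3 p q r ≠ 0 := fun ij ik jk e e' =>
    hχ.uniform _ _ _ ij ik jk (by rw [e, e', _root_.sign_zero])
  refine ⟨A, ⟨fun i => ?_, fun i j ij θ τ h1 h2 p hp => ?_, fun i j k => ?_, ?_⟩, fun i => ?_,
    fun i j k ij ik jk => ?_, fun i j k ij ik jk => ?_⟩
  · rw [hA]
    exact ⟨(Finset.finite_toSet _).isCompact_convexHull _, convex_convexHull _ _,
      (Finset.coe_nonempty.2 (ne i)).convexHull⟩
  · rcases (hc.ne ij).lt_or_gt with h | h
    · exact pair i j h θ τ h1 h2 p hp.1 hp.2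
    · exact pair j i h θ τ h2 h1 p hp.2 hp.1
  · refine sort3 hc (P := fun i j k => ∀ θ τ,
      ¬ (Supports (A i) θ τ ∧ Supports (A j) θ τ ∧ Supports (A k) θ τ))
      (fun i j k h θ τ h' => h θ τ (by tauto)) (fun i j k h θ τ h' => h θ τ (by tauto))
      fun i j k ij jk θ τ h => ?_
    have h1 := z i j ij θ τ h.1 h.2.1
    have h2 := z i k (ij.trans jk) θ τ h.1 h.2.2
    have h3 : t s(i, j) = t s(i, k) := mul_right_cancel₀ (sz h1) (by linarith)
    rcases hT' i j k ij jk with h | h <;> linarith [h.2.1, h.2.2]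
  · refine (Set.finite_iUnion fun i => Set.finite_iUnion fun j =>
      (finite_zeros (t s(i, j))).image fun θ => (θ, supp (A i) θ)).subset ?_
    rintro x ⟨h0, i, j, ij, h1, h2⟩
    simp only [mem_iUnion]
    rcases (hc.ne ij).lt_or_gt with h | h
    · exact ⟨i, j, x.1, ⟨h0, z i j h _ _ h1 h2⟩, Prod.ext rfl h1.eq⟩
    · exact ⟨j, i, x.1, ⟨h0, z j i h _ _ h2 h1⟩, Prod.ext rfl h2.eq⟩
  · refine ⟨_, ne i, ?_, hA i⟩
    have h1 := hf.card i
    have h2 := hg.card i
    have h3 : (body (U i) (W i) M).card ≤ (U i).card + (W i).card :=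
      (Finset.card_union_le _ _).trans (add_le_add Finset.card_image_le Finset.card_image_le)
    have h4 := Finset.card_union_of_disjoint (s := Finset.univ.filter fun j => c j < c i)
      (t := Finset.univ.filter fun j => -c j < -c i)
      (Finset.disjoint_filter.2 fun j _ h h' => h.not_gt (neg_lt_neg_iff.1 h'))
    have h5 := Finset.card_lt_card (s := (Finset.univ.filter fun j => c j < c i) ∪
      Finset.univ.filter fun j => -c j < -c i) (t := Finset.univ)
      ((Finset.ssubset_iff_of_subset (Finset.subset_univ _)).2 ⟨i, by simp, by simp⟩)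
    rw [Finset.card_univ, Fintype.card_fin] at h5
    omega
  · obtain ⟨p, q, r, h1, h2⟩ := model ij ik jk
    exact ⟨p, q, r, dz ij ik jk h1, h2⟩
  · obtain ⟨p, q, r, h1, h2⟩ := model ij ik jk
    rw [model_iff (cont _) (cont _) (cont _) h2 (dz ij ik jk h1), h1, sign_eq_one_iff]

end Pool.Agent.MP_14a896_co

end

section

/-! The simple order type of a sweep. -/

open Set Real

namespace Pool.Agent.MP_14a896_co

/-- Alternating, uniform, and satisfying the three-term relations. -/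
structure Pre {ι : Type} (χ : ι → ι → ι → SignType) : Prop where
  swap_left : ∀ i j k, χ j i k = -χ i j k
  swap_right : ∀ i j k, χ i k j = -χ i j k
  uniform : ∀ i j k, i ≠ j → i ≠ k → j ≠ k → χ i j k ≠ 0
  gp3 : ∀ p a b c d, 0 ≤ χ p a b * χ p c d → 0 ≤ χ p a d * χ p b c → 0 ≤ χ p a c * χ p b d

set_option synthInstance.maxSize 4000 in
lemma six_signs : ∀ a : SignType, a ≠ 0 → ∀ b₁ : SignType, b₁ ≠ 0 → ∀ b₂ : SignType, b₂ ≠ 0 →
    ∀ b₃ : SignType, b₃ ≠ 0 → ∀ f₁ : SignType, f₁ ≠ 0 → ∀ f₂ : SignType, f₂ ≠ 0 →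
    ∀ f₃ : SignType, f₃ ≠ 0 → (f₁ * b₁ = f₂ * b₂ → f₂ * b₂ = f₃ * b₃ → f₁ * b₁ = 0) →
    ∀ e₁ : SignType, e₁ ≠ 0 → (a * e₁ = -(b₂ * f₃) → -(b₂ * f₃) = b₃ * f₂ → a * e₁ = 0) →
    ∀ e₂ : SignType, e₂ ≠ 0 → (a * e₂ = -(b₃ * f₁) → -(b₃ * f₁) = b₁ * f₃ → a * e₂ = 0) →
    ∀ e₃ : SignType, e₃ ≠ 0 → (a * e₃ = -(b₁ * f₂) → -(b₁ * f₂) = b₂ * f₁ → a * e₃ = 0) →
    (f₁ * -a = e₃ * b₂ → e₃ * b₂ = -(e₂ * b₃) → f₁ * -a = 0) →
    (f₂ * -a = e₁ * b₃ → e₁ * b₃ = -(e₃ * b₁) → f₂ * -a = 0) → False := by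
  decide +kernel

namespace Pre

variable {ι : Type} {χ : ι → ι → ι → SignType} (h : Pre χ)
include h

lemma cyc (i j k : ι) : χ j k i = χ i j k := by
  rw [h.swap_right, h.swap_left, neg_neg]

lemma zero₁ (i k : ι) : χ i i k = 0 := by
  have := h.swap_left i i k
  revert this
  generalize χ i i k = s
  revert s
  decide

lemma zero₂ (i k : ι) : χ i k k = 0 := by rw [← h.cyc, h.zero₁]

lemma zero₃ (i k : ι) : χ i k i = 0 := by rw [h.cyc, h.zero₁]

lemma gpn (p a b c d : ι) : χ p a b * χ p c d = χ p a c * χ p d b →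
    χ p a c * χ p d b = χ p a d * χ p b c → χ p a b * χ p c d = 0 := by
  have g1 := h.gp3 p a b c d
  have g2 := h.gp3 p a d c b
  rw [h.swap_right p d b, mul_neg] at g1
  rw [h.swap_right p b c, h.swap_right p c d, mul_neg, mul_neg] at g2
  revert g1 g2
  generalize χ p a b * χ p c d = x
  generalize χ p a c * χ p d b = y
  generalize χ p a d * χ p b c = z
  revert x y z
  decide

lemma gpq (p q x v w : ι) : χ p q x * χ p v w = -(χ p q v * χ p x w) →
    -(χ p q v * χ p x w) = χ p q w * χ p x v → χ p q x * χ p v w = 0 := by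
  simpa only [h.swap_right p x w, mul_neg] using h.gpn p q x v w

lemma gpx (p x u v w : ι) : χ p x u * χ x v w = χ p x v * χ x w u →
    χ p x v * χ x w u = χ p x w * χ x u v → χ p x u * χ x v w = 0 := by
  simpa only [h.swap_left p x, neg_mul, neg_inj, SignType.neg_eq_zero_iff] using h.gpn x p u v w

lemma gpy (p x u v w : ι) : χ p x u * χ u v w = χ p u v * χ x w u →
    χ p u v * χ x w u = -(χ p w u * χ x u v) → χ p x u * χ u v w = 0 := by
  have := h.gpn u p x v w
  rwa [← h.cyc u p x, h.swap_left p u v, h.cyc x u w, h.swap_right x w u, neg_mul_neg,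
    ← h.cyc u p w, h.swap_left x u v, mul_neg] at this

lemma b2_aux {p q x u v : ι} (h2 : 0 ≤ χ p q u * χ x v p) (h3 : 0 ≤ χ p q v * χ x p u) :
    0 ≤ χ p q x * χ p u v :=
  h.gp3 p q u x v (by rwa [← h.cyc p x v]) (by rwa [h.cyc x p u])

lemma b2_left {p q x u v w : ι} (hp : p = u ∨ p = v ∨ p = w) (h1 : 0 ≤ χ p q u * χ x v w)
    (h2 : 0 ≤ χ p q v * χ x w u) (h3 : 0 ≤ χ p q w * χ x u v) : 0 ≤ χ p q x * χ u v w := by
  rcases hp with rfl | rfl | rfl
  · exact h.b2_aux h2 h3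
  · exact h.cyc u p w ▸ h.b2_aux h3 h1
  · exact h.cyc p u v ▸ h.b2_aux h1 h2

lemma b2 (p q x u v w : ι) (h1 : 0 ≤ χ p q u * χ x v w) (h2 : 0 ≤ χ p q v * χ x w u)
    (h3 : 0 ≤ χ p q w * χ x u v) : 0 ≤ χ p q x * χ u v w := by
  by_cases hp : p = u ∨ p = v ∨ p = w
  · exact h.b2_left hp h1 h2 h3
  by_cases hq : q = u ∨ q = w ∨ q = v
  · have := h.b2_left (q := p) (x := x) hq
    simp only [h.swap_left p q, h.swap_right x v w, h.swap_right x u v, h.swap_right x w u,
      h.swap_right u v w, neg_mul_neg] at this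
    exact this h1 h3 h2
  rcases eq_or_ne x u with rfl | xu
  · exact h1
  rcases eq_or_ne x v with rfl | xv
  · exact h.cyc u x w ▸ h2
  rcases eq_or_ne x w with rfl | xw
  · exact h.cyc x u v ▸ h3
  by_contra hc
  have pq : p ≠ q := by rintro rfl; simp [h.zero₁] at hc
  have px : p ≠ x := by rintro rfl; simp [h.zero₃] at hc
  have qx : q ≠ x := by rintro rfl; simp [h.zero₂] at hc
  have uv : u ≠ v := by rintro rfl; simp [h.zero₁] at hc
  have uw : u ≠ w := by rintro rfl; simp [h.zero₃] at hc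
  have vw : v ≠ w := by rintro rfl; simp [h.zero₂] at hc
  simp only [not_or] at hp hq
  have k1 : ∀ b c : SignType, b ≠ 0 → c ≠ 0 → 0 ≤ b * c → c = b := by decide
  have k2 : ∀ a d : SignType, ¬ 0 ≤ a * d → d = -a := by decide
  have b1 := h.uniform p q u pq hp.1 hq.1
  have b2 := h.uniform p q v pq hp.2.1 hq.2.2
  have b3 := h.uniform p q w pq hp.2.2 hq.2.1
  have c1 := k1 _ _ b1 (h.uniform x v w xv xw vw) h1
  have c2 := k1 _ _ b2 (h.uniform x w u xw xu uw.symm) h2
  have c3 := k1 _ _ b3 (h.uniform x u v xu xv uv) h3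
  have r1 := h.gpx p x u v w
  have r2 := h.gpy p x u v w
  have r3 := h.gpy p x v w u
  rw [c1, c2, c3] at r1
  rw [c2, c3, k2 _ _ hc] at r2
  rw [c3, c1, h.cyc u v w, k2 _ _ hc] at r3
  exact six_signs _ (h.uniform p q x pq px qx) _ b1 _ b2 _ b3 _ (h.uniform p x u px hp.1 xu)
    _ (h.uniform p x v px hp.2.1 xv) _ (h.uniform p x w px hp.2.2 xw) r1
    _ (h.uniform p v w hp.2.1 hp.2.2 vw) (h.gpq p q x v w)
    _ (h.uniform p w u hp.2.2 hp.1 uw.symm) (h.gpq p q x w u)
    _ (h.uniform p u v hp.1 hp.2.1 uv) (h.gpq p q x u v) r2 r3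

end Pre

/-- Symmetric crossing times, monotone on every triple. -/
structure Sweep {n : ℕ} (T : Fin n → Fin n → ℝ) : Prop where
  symm : ∀ i j, T i j = T j i
  mono : ∀ i j k, i < j → j < k → (T i j < T i k ∧ T i k < T j k) ∨ (T j k < T i k ∧ T i k < T i j)

/-- The difference of two labels. -/
def df {n : ℕ} (i j : Fin n) : ℝ := ((j : ℕ) : ℝ) - (i : ℕ)

lemma df_pos {n : ℕ} {i j : Fin n} (h : i < j) : 0 < df i j :=
  sub_pos.2 (Nat.cast_lt.2 h)

lemma df_neg {n : ℕ} {i j : Fin n} (h : j < i) : df i j < 0 :=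
  sub_neg.2 (Nat.cast_lt.2 h)

/-- The order type of a sweep. -/
noncomputable def chi {n : ℕ} (T : Fin n → Fin n → ℝ) (i j k : Fin n) : SignType :=
  SignType.sign (df i j * df i k * (T i k - T i j))

variable {n : ℕ} {T : Fin n → Fin n → ℝ}

lemma chi_swap_right (i j k : Fin n) : chi T i k j = -chi T i j k := by
  rw [chi, chi, ← Left.sign_neg]
  congr 1
  ring

lemma Sweep.swap_lt (h : Sweep T) {i j : Fin n} (ij : i < j) (k : Fin n) :
    chi T j i k = -chi T i j k := by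
  simp only [chi, sign_mul, _root_.sign_pos (df_pos ij), _root_.sign_neg (df_neg ij), h.symm j i]
  rcases lt_trichotomy k i with ki | rfl | ik
  · rw [_root_.sign_neg (df_neg ki), _root_.sign_neg (df_neg (ki.trans ij)), h.symm j k, h.symm i k]
    rcases h.mono k i j ki ij with h' | h'
    · rw [_root_.sign_neg (sub_neg.2 h'.2), _root_.sign_neg (sub_neg.2 (h'.1.trans h'.2))]
      decide
    · rw [_root_.sign_pos (sub_pos.2 h'.1), _root_.sign_pos (sub_pos.2 (h'.1.trans h'.2))]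
      decide
  · simp [df, h.symm j k]
  rcases lt_trichotomy k j with kj | rfl | jk
  · rw [_root_.sign_pos (df_pos ik), _root_.sign_neg (df_neg kj), h.symm j k]
    rcases h.mono i k j ik kj with h' | h'
    · rw [_root_.sign_neg (sub_neg.2 h'.1), _root_.sign_pos (sub_pos.2 h'.2)]
      decide
    · rw [_root_.sign_neg (sub_neg.2 h'.1), _root_.sign_pos (sub_pos.2 h'.2)]
      decide
  · simp [df]
  · rw [_root_.sign_pos (df_pos ik), _root_.sign_pos (df_pos jk)]
    rcases h.mono i j k ij jk with h' | h'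
    · rw [_root_.sign_pos (sub_pos.2 h'.1), _root_.sign_pos (sub_pos.2 (h'.1.trans h'.2))]
      decide
    · rw [_root_.sign_neg (sub_neg.2 h'.2), _root_.sign_neg (sub_neg.2 (h'.1.trans h'.2))]
      decide

lemma Sweep.swap_left (h : Sweep T) (i j k : Fin n) : chi T j i k = -chi T i j k := by
  rcases lt_trichotomy i j with ij | rfl | ij
  · exact h.swap_lt ij k
  · simp [chi, df]
  · rw [h.swap_lt ij k, neg_neg]

lemma Sweep.pre (h : Sweep T) : Pre (chi T) := by
  refine ⟨h.swap_left, chi_swap_right, fun i j k => ?_, fun p a b c d h1 h2 => ?_⟩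
  · refine sort3 (c := fun i : Fin n => ((i : ℕ) : ℝ)) (P := fun i j k => chi T i j k ≠ 0)
      (Nat.cast_injective.comp Fin.val_injective) (fun i j k e => ?_) (fun i j k e => ?_)
      fun i j k ij jk => ?_
    · rwa [h.swap_left, Ne, SignType.neg_eq_zero_iff]
    · rwa [chi_swap_right, Ne, SignType.neg_eq_zero_iff]
    have ij : i < j := Nat.cast_lt.1 ij
    have jk : j < k := Nat.cast_lt.1 jk
    refine sign_ne_zero.2 (mul_ne_zero (mul_pos (df_pos ij) (df_pos (ij.trans jk))).ne' ?_)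
    rcases h.mono i j k ij jk with h' | h'
    · exact (sub_pos.2 h'.1).ne'
    · exact (sub_neg.2 h'.2).ne
  · simp only [chi, ← sign_mul, sign_nonneg_iff] at h1 h2 ⊢
    convert add_nonneg h1 h2 using 1
    ring

lemma chi_no_cycle {m x y z : Fin n} (hx : m ≤ x) (hy : m ≤ y) (hz : m ≤ z)
    (h1 : chi T m x y = 1) (h2 : chi T m y z = 1) (h3 : chi T m z x = 1) : False := by
  have k : ∀ {x y}, m ≤ x → m ≤ y → chi T m x y = 1 → T m x < T m y := fun hx hy e =>
    sub_pos.1 (pos_of_mul_pos_right (sign_eq_one_iff.1 e)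
      (mul_nonneg (sub_nonneg.2 (Nat.cast_le.2 hx)) (sub_nonneg.2 (Nat.cast_le.2 hy))))
  linarith [k hx hy h1, k hy hz h2, k hz hx h3]

theorem Sweep.isSimpleOrderType (h : Sweep T) : IsSimpleOrderType (chi T) := by
  have k := h.pre
  refine ⟨k.swap_left, k.swap_right, fun x p q u v w h1 h2 h3 => ?_, ?_, k.uniform⟩
  · rw [← k.cyc x p q]
    refine k.b2 p q x u v w (by rwa [k.cyc]) (by rwa [k.cyc v p q, k.cyc u x w]) ?_
    rwa [k.cyc w p q, ← k.cyc x u v]
  · rintro ⟨a, b, c, d, h1, h2, h3, h4⟩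
    have h5 : chi T a d c = 1 := by rw [k.swap_right, h2, neg_neg]
    have h6 : chi T a c b = 1 := by rw [k.swap_right, h4, neg_neg]
    have : (a ≤ b ∧ a ≤ c ∧ a ≤ d) ∨ (b ≤ a ∧ b ≤ c ∧ b ≤ d) ∨ (c ≤ a ∧ c ≤ b ∧ c ≤ d) ∨
        (d ≤ a ∧ d ≤ b ∧ d ≤ c) := by omega
    rcases this with e | e | e | e
    · exact chi_no_cycle e.1 e.2.2 e.2.1 h3 h5 h6
    · exact chi_no_cycle e.2.1 e.2.2 e.1 h1 (by rw [k.cyc, h3]) (by rw [← k.cyc, h6])
    · exact chi_no_cycle e.1 e.2.2 e.2.1 (by rw [← k.cyc, h5]) (by rw [k.cyc, h1])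
        (by rw [k.cyc, h6])
    · exact chi_no_cycle e.1 e.2.1 e.2.2 (by rw [← k.cyc, h3]) (by rw [← k.cyc, h1])
        (by rw [k.cyc, h5])

end Pool.Agent.MP_14a896_co

end

section

/-! A sweep of nine pseudolines that violates the theorem of Pappus. -/

namespace Pool.Agent.MP_14a896_co

/-- Crossing times of a simple non-stretchable arrangement of nine pseudolines. -/
def tg (a b : ℕ) : ℕ :=
  (([[0, 1, 4, 3, 14, 6, 11, 9, 13],
    [1, 0, 29, 19, 28, 24, 22, 18, 26],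
    [4, 29, 0, 2, 27, 23, 21, 16, 25],
    [3, 19, 2, 0, 35, 34, 33, 17, 32],
    [14, 28, 27, 35, 0, 5, 10, 8, 12],
    [6, 24, 23, 34, 5, 0, 20, 15, 30],
    [11, 22, 21, 33, 10, 20, 0, 7, 31],
    [9, 18, 16, 17, 8, 15, 7, 0, 36],
    [13, 26, 25, 32, 12, 30, 31, 36, 0]] : List (List ℕ)).getD a []).getD b 0

lemma tg_symm : ∀ a < 9, ∀ b < 9, tg a b = tg b a := by decide

lemma tg_mono : ∀ c < 9, ∀ b < c, ∀ a < b, (tg a b < tg a c ∧ tg a c < tg b c) ∨
    (tg b c < tg a c ∧ tg a c < tg a b) := by decide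

theorem not_stretchable (v : ℕ → ℝ × ℝ)
    (hp : ∀ a b c, a < b → b < c → c < 9 → tg a b < tg b c → 0 < det3 (v a) (v b) (v c))
    (hn : ∀ a b c, a < b → b < c → c < 9 → tg b c < tg a b → 0 < -det3 (v a) (v b) (v c)) :
    False := by
  have h023 := hn 0 2 3 (by decide) (by decide) (by decide) (by decide)
  have h014 := hp 0 1 4 (by decide) (by decide) (by decide) (by decide)
  have h012 := hp 0 1 2 (by decide) (by decide) (by decide) (by decide)
  have h034 := hp 0 3 4 (by decide) (by decide) (by decide) (by decide)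
  have h024 := hp 0 2 4 (by decide) (by decide) (by decide) (by decide)
  have h013 := hp 0 1 3 (by decide) (by decide) (by decide) (by decide)
  have h124 := hn 1 2 4 (by decide) (by decide) (by decide) (by decide)
  have h025 := hp 0 2 5 (by decide) (by decide) (by decide) (by decide)
  have h125 := hn 1 2 5 (by decide) (by decide) (by decide) (by decide)
  have h245 := hn 2 4 5 (by decide) (by decide) (by decide) (by decide)
  have h256 := hn 2 5 6 (by decide) (by decide) (by decide) (by decide)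
  have h145 := hn 1 4 5 (by decide) (by decide) (by decide) (by decide)
  have h156 := hn 1 5 6 (by decide) (by decide) (by decide) (by decide)
  have h456 := hp 4 5 6 (by decide) (by decide) (by decide) (by decide)
  have h048 := hn 0 4 8 (by decide) (by decide) (by decide) (by decide)
  have h036 := hp 0 3 6 (by decide) (by decide) (by decide) (by decide)
  have h046 := hn 0 4 6 (by decide) (by decide) (by decide) (by decide)
  have h038 := hp 0 3 8 (by decide) (by decide) (by decide) (by decide)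
  have h068 := hp 0 6 8 (by decide) (by decide) (by decide) (by decide)
  have h368 := hn 3 6 8 (by decide) (by decide) (by decide) (by decide)
  have h018 := hp 0 1 8 (by decide) (by decide) (by decide) (by decide)
  have h138 := hp 1 3 8 (by decide) (by decide) (by decide) (by decide)
  have h168 := hp 1 6 8 (by decide) (by decide) (by decide) (by decide)
  have h467 := hn 4 6 7 (by decide) (by decide) (by decide) (by decide)
  have h045 := hn 0 4 5 (by decide) (by decide) (by decide) (by decide)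
  have h047 := hn 0 4 7 (by decide) (by decide) (by decide) (by decide)
  have h457 := hp 4 5 7 (by decide) (by decide) (by decide) (by decide)
  have h057 := hp 0 5 7 (by decide) (by decide) (by decide) (by decide)
  have h147 := hn 1 4 7 (by decide) (by decide) (by decide) (by decide)
  have h017 := hp 0 1 7 (by decide) (by decide) (by decide) (by decide)
  have h157 := hn 1 5 7 (by decide) (by decide) (by decide) (by decide)
  have h137 := hn 1 3 7 (by decide) (by decide) (by decide) (by decide)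
  have h015 := hp 0 1 5 (by decide) (by decide) (by decide) (by decide)
  have h135 := hp 1 3 5 (by decide) (by decide) (by decide) (by decide)
  have h158 := hp 1 5 8 (by decide) (by decide) (by decide) (by decide)
  have h136 := hp 1 3 6 (by decide) (by decide) (by decide) (by decide)
  have r0 : (det3 (v 0) (v 2) (v 4)) * (det3 (v 0) (v 1) (v 3)) <
      (det3 (v 0) (v 1) (v 2)) * (det3 (v 0) (v 3) (v 4)) := by
    have := mul_pos h023 h014
    have e : (det3 (v 0) (v 1) (v 2)) * (det3 (v 0) (v 3) (v 4)) = (det3 (v 0) (v 2) (v 4)) * (det3 (v 0) (v 1) (v 3)) +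
        (-det3 (v 0) (v 2) (v 3)) * (det3 (v 0) (v 1) (v 4)) := by
      simp only [det3]; ring
    linarith
  have r1 : (det3 (v 0) (v 1) (v 2)) * (-det3 (v 2) (v 4) (v 5)) <
      (-det3 (v 1) (v 2) (v 5)) * (det3 (v 0) (v 2) (v 4)) := by
    have := mul_pos h124 h025
    have e : (-det3 (v 1) (v 2) (v 5)) * (det3 (v 0) (v 2) (v 4)) = (det3 (v 0) (v 1) (v 2)) * (-det3 (v 2) (v 4) (v 5)) +
        (-det3 (v 1) (v 2) (v 4)) * (det3 (v 0) (v 2) (v 5)) := by
      simp only [det3]; ring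
    linarith
  have r2 : (-det3 (v 1) (v 2) (v 5)) * (det3 (v 4) (v 5) (v 6)) <
      (-det3 (v 2) (v 4) (v 5)) * (-det3 (v 1) (v 5) (v 6)) := by
    have := mul_pos h256 h145
    have e : (-det3 (v 2) (v 4) (v 5)) * (-det3 (v 1) (v 5) (v 6)) = (-det3 (v 1) (v 2) (v 5)) * (det3 (v 4) (v 5) (v 6)) +
        (-det3 (v 2) (v 5) (v 6)) * (-det3 (v 1) (v 4) (v 5)) := by
      simp only [det3]; ring
    linarith
  have r3 : (det3 (v 0) (v 3) (v 4)) * (det3 (v 0) (v 6) (v 8)) <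
      (-det3 (v 0) (v 4) (v 6)) * (det3 (v 0) (v 3) (v 8)) := by
    have := mul_pos h048 h036
    have e : (-det3 (v 0) (v 4) (v 6)) * (det3 (v 0) (v 3) (v 8)) = (det3 (v 0) (v 3) (v 4)) * (det3 (v 0) (v 6) (v 8)) +
        (-det3 (v 0) (v 4) (v 8)) * (det3 (v 0) (v 3) (v 6)) := by
      simp only [det3]; ring
    linarith
  have r4 : (det3 (v 0) (v 3) (v 8)) * (det3 (v 1) (v 6) (v 8)) <
      (det3 (v 1) (v 3) (v 8)) * (det3 (v 0) (v 6) (v 8)) := by
    have := mul_pos h368 h018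
    have e : (det3 (v 1) (v 3) (v 8)) * (det3 (v 0) (v 6) (v 8)) = (det3 (v 0) (v 3) (v 8)) * (det3 (v 1) (v 6) (v 8)) +
        (-det3 (v 3) (v 6) (v 8)) * (det3 (v 0) (v 1) (v 8)) := by
      simp only [det3]; ring
    linarith
  have r5 : (-det3 (v 0) (v 4) (v 6)) * (det3 (v 4) (v 5) (v 7)) <
      (det3 (v 4) (v 5) (v 6)) * (-det3 (v 0) (v 4) (v 7)) := by
    have := mul_pos h467 h045
    have e : (det3 (v 4) (v 5) (v 6)) * (-det3 (v 0) (v 4) (v 7)) = (-det3 (v 0) (v 4) (v 6)) * (det3 (v 4) (v 5) (v 7)) +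
        (-det3 (v 4) (v 6) (v 7)) * (-det3 (v 0) (v 4) (v 5)) := by
      simp only [det3]; ring
    linarith
  have r6 : (-det3 (v 0) (v 4) (v 7)) * (-det3 (v 1) (v 5) (v 7)) <
      (det3 (v 0) (v 1) (v 7)) * (det3 (v 4) (v 5) (v 7)) := by
    have := mul_pos h057 h147
    have e : (det3 (v 0) (v 1) (v 7)) * (det3 (v 4) (v 5) (v 7)) = (-det3 (v 0) (v 4) (v 7)) * (-det3 (v 1) (v 5) (v 7)) +
        (det3 (v 0) (v 5) (v 7)) * (-det3 (v 1) (v 4) (v 7)) := by
      simp only [det3]; ring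
    linarith
  have r7 : (det3 (v 1) (v 3) (v 5)) * (det3 (v 0) (v 1) (v 7)) <
      (det3 (v 0) (v 1) (v 3)) * (-det3 (v 1) (v 5) (v 7)) := by
    have := mul_pos h137 h015
    have e : (det3 (v 0) (v 1) (v 3)) * (-det3 (v 1) (v 5) (v 7)) = (det3 (v 1) (v 3) (v 5)) * (det3 (v 0) (v 1) (v 7)) +
        (-det3 (v 1) (v 3) (v 7)) * (det3 (v 0) (v 1) (v 5)) := by
      simp only [det3]; ring
    linarith
  have r8 : (-det3 (v 1) (v 5) (v 6)) * (det3 (v 1) (v 3) (v 8)) <
      (det3 (v 1) (v 3) (v 5)) * (det3 (v 1) (v 6) (v 8)) := by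
    have := mul_pos h158 h136
    have e : (det3 (v 1) (v 3) (v 5)) * (det3 (v 1) (v 6) (v 8)) = (-det3 (v 1) (v 5) (v 6)) * (det3 (v 1) (v 3) (v 8)) +
        (det3 (v 1) (v 5) (v 8)) * (det3 (v 1) (v 3) (v 6)) := by
      simp only [det3]; ring
    linarith
  have q0 := mul_pos h024 h013
  have s0 := r0
  have s1 := mul_lt_mul'' s0 r1 q0.le (mul_pos h012 h245).le
  have q1 := mul_pos q0 (mul_pos h012 h245)
  have s2 := mul_lt_mul'' s1 r2 q1.le (mul_pos h125 h456).le
  have q2 := mul_pos q1 (mul_pos h125 h456)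
  have s3 := mul_lt_mul'' s2 r3 q2.le (mul_pos h034 h068).le
  have q3 := mul_pos q2 (mul_pos h034 h068)
  have s4 := mul_lt_mul'' s3 r4 q3.le (mul_pos h038 h168).le
  have q4 := mul_pos q3 (mul_pos h038 h168)
  have s5 := mul_lt_mul'' s4 r5 q4.le (mul_pos h046 h457).le
  have q5 := mul_pos q4 (mul_pos h046 h457)
  have s6 := mul_lt_mul'' s5 r6 q5.le (mul_pos h047 h157).le
  have q6 := mul_pos q5 (mul_pos h047 h157)
  have s7 := mul_lt_mul'' s6 r7 q6.le (mul_pos h135 h017).le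
  have q7 := mul_pos q6 (mul_pos h135 h017)
  have s8 := mul_lt_mul'' s7 r8 q7.le (mul_pos h156 h138).le
  exact s8.ne (by ring)

end Pool.Agent.MP_14a896_co

end

section

/-! Crossing angles of a realization of a sweep, and a counting bound. -/

open Set Real

namespace Pool.Agent.MP_14a896_co

lemma Interl.at {d e : ℝ → ℝ} (hd : Per d) (he : Per e) (h : Interl d e) {α β : ℝ}
    (k : Cr d α β) : ∃ γ δ, α < γ ∧ γ < β ∧ β < δ ∧ δ < α + 2 * π ∧ Cr e γ δ := by
  obtain ⟨α', β', γ, δ, h1, h2, h3, h4, h5, h6⟩ := h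
  obtain ⟨z, rfl, rfl⟩ := k.unique hd h5
  exact ⟨_, _, by linarith, by linarith, by linarith, by linarith, h6.shift he z⟩

lemma int_eq_zero {z : ℤ} (h1 : -(2 * π) < z * (2 * π)) (h2 : z * (2 * π) < 2 * π) : z = 0 := by
  have := two_pi_pos
  have a1 : (-1 : ℝ) < z := by nlinarith
  have a2 : (z : ℝ) < 1 := by nlinarith
  have a3 : -1 < z := by exact_mod_cast a1
  have a4 : z < 1 := by exact_mod_cast a2
  omega

lemma Cr.eq_of_mem {d : ℝ → ℝ} (hd : Per d) {α β γ δ a : ℝ} (h : Cr d α β) (h' : Cr d γ δ)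
    (h1 : a ≤ α) (h2 : α < a + 2 * π) (h3 : a ≤ γ) (h4 : γ < a + 2 * π) : α = γ ∧ β = δ := by
  obtain ⟨z, e1, e2⟩ := h.unique hd h'
  obtain rfl : z = 0 := int_eq_zero (by linarith) (by linarith)
  simpa using And.intro e1 e2

lemma exists_lift {ι : Type} (S : Finset ι) (hS : S.Nonempty) (τ : ι → ℝ)
    (hτ : ∀ j ∈ S, ∀ k ∈ S, j ≠ k → τ j ≠ τ k) {d : ι → ℝ → ℝ} (hd : ∀ j, Per (d j))
    (cr : ∀ j ∈ S, ∃ α β, Cr (d j) α β)
    (int : ∀ j ∈ S, ∀ k ∈ S, τ j < τ k → Interl (d j) (d k)) :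
    ∃ (a : ℝ) (α β : ι → ℝ), (∀ j ∈ S, Cr (d j) (α j) (β j) ∧ a ≤ α j ∧ α j < a + 2 * π) ∧
      ∀ j ∈ S, ∀ k ∈ S, τ j < τ k → α j < α k ∧ α k < β j := by
  obtain ⟨j₀, h₀, hm⟩ := S.exists_min_image τ hS
  obtain ⟨a, b, hab⟩ := cr j₀ h₀
  have : ∀ j ∈ S, ∃ α β, Cr (d j) α β ∧ a ≤ α ∧ α < a + 2 * π := fun j hj => by
    obtain ⟨α, β, h⟩ := cr j hj
    obtain ⟨z, h1, h2⟩ := exists_shift a α
    exact ⟨_, _, h.shift (hd j) z, h1, h2⟩
  choose! α β h using this
  have p := two_pi_pos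
  have hb : ∀ j ∈ S, β j < a + 2 * π := fun j hj => by
    rcases eq_or_ne j₀ j with rfl | e
    · rw [((h _ hj).1.eq_of_mem (hd _) hab (h _ hj).2.1 (h _ hj).2.2 le_rfl (by linarith)).2]
      exact hab.lt'
    · obtain ⟨γ, δ, h1, h2, h3, h4, h5⟩ :=
        (int _ h₀ _ hj ((hm j hj).lt_of_ne (hτ _ h₀ _ hj e))).at (hd _) (hd _) hab
      rwa [((h _ hj).1.eq_of_mem (hd _) h5 (h _ hj).2.1 (h _ hj).2.2 h1.le (by linarith)).2]
  refine ⟨a, α, β, h, fun j hj k hk hjk => ?_⟩
  obtain ⟨γ, δ, h1, h2, h3, h4, h5⟩ := (int _ hj _ hk hjk).at (hd _) (hd _) (h j hj).1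
  rw [((h _ hk).1.eq_of_mem (hd _) h5 (h _ hk).2.1 (h _ hk).2.2 (by linarith [(h j hj).2.1])
    (by linarith [hb j hj])).1]
  exact ⟨h1, h2⟩

lemma polar_of_ip {x : ℝ} {v : ℝ × ℝ} (h : ip x v = 0) :
    ∃ r, v.1 = -(r * sin x) ∧ v.2 = r * cos x := by
  unfold ip at h
  refine ⟨cos x * v.2 - sin x * v.1, ?_, ?_⟩
  · linear_combination cos x * h - v.1 * sin_sq_add_cos_sq x
  · linear_combination sin x * h - v.2 * sin_sq_add_cos_sq x

lemma det3_pos {x y z : ℝ} {p q r : ℝ × ℝ} (xy : x < y) (yz : y < z) (zx : z < x + π)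
    (h1 : ip x q = ip x p) (h2 : ip y r = ip y p) (h3 : ip z r = ip z q) (h4 : ip y q ≠ ip y p) :
    0 < det3 p q r := by
  obtain ⟨a, a1, a2⟩ := polar_of_ip (x := x) (v := q - p) (by rw [ip_sub, h1, sub_self])
  obtain ⟨b, b1, b2⟩ := polar_of_ip (x := z) (v := r - q) (by rw [ip_sub, h3, sub_self])
  have e1 := congrFun (ip_polar a1 a2) y
  have e2 := congrFun (ip_polar b1 b2) y
  rw [ip_sub] at e1 e2
  rw [← neg_sub z, sin_neg] at e2
  have s1 : 0 < sin (y - x) := sin_pos_of_pos_of_lt_pi (by linarith) (by linarith)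
  have s2 : 0 < sin (z - y) := sin_pos_of_pos_of_lt_pi (by linarith) (by linarith)
  have s3 : 0 < sin (z - x) := sin_pos_of_pos_of_lt_pi (by linarith) (by linarith)
  have e3 : det3 p q r = a * b * sin (z - x) := by
    have : det3 p q r = (q - p).1 * (r - q).2 - (q - p).2 * (r - q).1 := by
      simp only [det3, Prod.fst_sub, Prod.snd_sub]; ring
    rw [this, a1, a2, b1, b2, sin_sub]
    ring
  have e4 : a * b * (sin (y - x) * sin (z - y)) = (ip y q - ip y p) ^ 2 := by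
    linear_combination (-(b * sin (z - y))) * e1 + (ip y q - ip y p) * (e2 - h2)
  rw [e3]
  exact mul_pos (pos_of_mul_pos_left (e4 ▸ sq_pos_of_ne_zero (sub_ne_zero.2 h4))
    (mul_pos s1 s2).le) s3

lemma supp_between {V : Finset (ℝ × ℝ)} {v : ℝ × ℝ} (hv : v ∈ V) {s s' θ : ℝ}
    (h1 : ∀ w ∈ V, ip s w ≤ ip s v) (h2 : ∀ w ∈ V, ip s' w ≤ ip s' v) (a1 : s ≤ θ) (a2 : θ ≤ s')
    (a3 : s < s') (a4 : s' < s + π) : supp (convexHull ℝ (V : Set (ℝ × ℝ))) θ = ip θ v := by
  refine (supports_hull (fun w hw => ?_) ⟨v, hv, rfl⟩).eq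
  have e : ∀ p, sin (s' - s) * ip θ p = sin (s' - θ) * ip s p + sin (θ - s) * ip s' p := fun p => by
    simp only [ip, sin_sub]
    ring
  have s1 : 0 < sin (s' - s) := sin_pos_of_pos_of_lt_pi (by linarith) (by linarith)
  have s2 : 0 ≤ sin (s' - θ) := sin_nonneg_of_nonneg_of_le_pi (by linarith) (by linarith)
  have s3 : 0 ≤ sin (θ - s) := sin_nonneg_of_nonneg_of_le_pi (by linarith) (by linarith)
  refine le_of_mul_le_mul_left ?_ s1
  rw [e, e]
  exact add_le_add (mul_le_mul_of_nonneg_left (h1 w hw) s2) (mul_le_mul_of_nonneg_left (h2 w hw) s3)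

variable {n k : ℕ} {T : Fin n → Fin n → ℝ} {A : Fin n → Set (ℝ × ℝ)}

/-- The support function of the body with the larger label minus that of the other one. -/
noncomputable def gap (A : Fin n → Set (ℝ × ℝ)) (i j : Fin n) (θ : ℝ) : ℝ :=
  if i < j then supp (A j) θ - supp (A i) θ else -(supp (A j) θ - supp (A i) θ)

lemma gap_of_lt {i j : Fin n} (h : i < j) : gap A i j = fun θ => supp (A j) θ - supp (A i) θ :=
  funext fun _ => if_pos h

lemma gap_of_gt {i j : Fin n} (h : j < i) :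
    gap A i j = fun θ => -(supp (A j) θ - supp (A i) θ) :=
  funext fun _ => if_neg h.not_gt

lemma gap_symm (i j : Fin n) : gap A i j = gap A j i := by
  rcases lt_trichotomy i j with h | rfl | h
  · simp only [gap_of_lt h, gap_of_gt h, neg_sub]
  · rfl
  · simp only [gap_of_lt h, gap_of_gt h, neg_sub]

lemma per_gap (i j : Fin n) : Per (gap A i j) := fun θ => by simp only [gap, (per_supp _).add]

lemma gap_eq_zero {i j : Fin n} {θ : ℝ} : gap A i j θ = 0 ↔ supp (A j) θ = supp (A i) θ := by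
  unfold gap
  split_ifs
  · exact sub_eq_zero
  · rw [neg_eq_zero, sub_eq_zero]

lemma RealizedBy.interl (h : RealizedBy (chi T) k A) {i j l : Fin n} (ij : i ≠ j) (il : i ≠ l)
    (hT : T i j < T i l) : Interl (gap A i j) (gap A i l) := by
  have jl : j ≠ l := by rintro rfl; exact hT.false
  have key : ∀ {j l}, i ≠ j → i ≠ l → j ≠ l → 0 < df i j * df i l * (T i l - T i j) →
      Interl (fun θ => supp (A j) θ - supp (A i) θ) fun θ => supp (A l) θ - supp (A i) θ :=
    fun ij il jl e => (h.orientable _ _ _ ij il jl).interl (h.gon _).continuous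
      (h.gon _).continuous (h.gon _).continuous ((h.realizes _ _ _ ij il jl).1 (_root_.sign_pos e))
  have p : ∀ j, Per fun θ => supp (A j) θ - supp (A i) θ := fun j => (per_supp _).sub (per_supp _)
  rcases ij.lt_or_gt with a | a <;> rcases il.lt_or_gt with b | b
  · rw [gap_of_lt a, gap_of_lt b]
    exact key ij il jl (mul_pos (mul_pos (df_pos a) (df_pos b)) (sub_pos.2 hT))
  · rw [gap_of_lt a, gap_of_gt b]
    exact (key il ij jl.symm (mul_pos_of_neg_of_neg (mul_neg_of_neg_of_pos (df_neg b) (df_pos a))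
      (sub_neg.2 hT))).rot (p _)
  · rw [gap_of_gt a, gap_of_lt b]
    simpa only [neg_neg] using (((key il ij jl.symm (mul_pos_of_neg_of_neg
      (mul_neg_of_pos_of_neg (df_pos b) (df_neg a)) (sub_neg.2 hT))).rot (p _)).rot (p _)).rot
      (p _).neg
  · rw [gap_of_gt a, gap_of_gt b]
    exact ((key ij il jl (mul_pos (mul_pos_of_neg_of_neg (df_neg a) (df_neg b))
      (sub_pos.2 hT))).rot (p _)).rot (p _)

lemma RealizedBy.lift (h : RealizedBy (chi T) k A) (hT : Sweep T) (hn : 3 ≤ n) (i : Fin n) :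
    ∃ (a : ℝ) (α β : Fin n → ℝ),
      (∀ j, i ≠ j → Cr (gap A i j) (α j) (β j) ∧ a ≤ α j ∧ α j < a + 2 * π) ∧
      ∀ j l, i ≠ j → i ≠ l → T i j < T i l → α j < α l ∧ α l < β j := by
  have ne : ∀ j l, i ≠ j → i ≠ l → j ≠ l → T i j ≠ T i l := fun j l ij il jl e =>
    hT.pre.uniform i j l ij il jl (by simp [chi, e])
  have ex : ∀ j, ∃ l, i ≠ l ∧ j ≠ l := fun j => by
    obtain ⟨l, -, hl⟩ := Finset.exists_mem_notMem_of_card_lt_card (s := {i, j}) (t := Finset.univ)
      (Finset.card_le_two.trans_lt (by simp; omega))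
    simp only [Finset.mem_insert, Finset.mem_singleton, not_or] at hl
    exact ⟨l, Ne.symm hl.1, Ne.symm hl.2⟩
  obtain ⟨a, α, β, h1, h2⟩ := exists_lift (Finset.univ.filter fun j => i ≠ j)
    ((ex i).imp fun l hl => by simpa using hl.1) (T i) (by simpa using fun j ij l => ne j l ij)
    (per_gap (A := A) i) (fun j hj => by
      have ij : i ≠ j := by simpa using hj
      obtain ⟨l, il, jl⟩ := ex j
      rcases (ne j l ij il jl).lt_or_gt with e | e
      · obtain ⟨α, β, γ, δ, -, -, -, -, h5, -⟩ := h.interl ij il e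
        exact ⟨_, _, h5⟩
      · obtain ⟨α, β, γ, δ, -, -, -, -, -, h5⟩ := h.interl il ij e
        exact ⟨_, _, h5⟩)
    fun j hj l hl => h.interl (by simpa using hj) (by simpa using hl)
  exact ⟨a, α, β, by simpa using h1, fun j l ij il => h2 j (by simpa using ij) l (by simpa using il)⟩

/-- Between the angles `x` and `y`, which are close, the vertex `v` supports `A`. -/
def Flat (A : Set (ℝ × ℝ)) (v : ℝ × ℝ) (x y : ℝ) : Prop :=
  y < x + π / 3 ∧ ∀ θ, x ≤ θ → θ ≤ y → supp A θ = ip θ v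

lemma det3_pos_of_flat {α β : Fin n → Fin n → ℝ} {p q r : Fin n} {u v w : ℝ × ℝ}
    (cr : ∀ i j, i ≠ j → Cr (gap A i j) (α i j) (β i j)) (pq : p ≠ q) (pr : p ≠ r) (qr : q ≠ r)
    (h1 : α p q < α p r) (h1' : α p r < β p q) (h2 : α q p < α q r) (h3 : α r p < α r q)
    (fu : Flat (A p) u (α p q) (α p r)) (fv : Flat (A q) v (α q p) (α q r))
    (fw : Flat (A r) w (α r p) (α r q)) : 0 < det3 u v w := by
  obtain ⟨z₁, e1, -⟩ := (cr r p pr.symm).unique (per_gap _ _) (gap_symm p r ▸ cr p r pr)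
  obtain ⟨z₂, e2, -⟩ := (cr q p pq.symm).unique (per_gap _ _) (gap_symm p q ▸ cr p q pq)
  obtain ⟨z₃, e3, -⟩ := (cr q r qr).unique (per_gap _ _) (gap_symm r q ▸ cr r q qr.symm)
  have := pi_pos
  have e4 : z₁ + z₃ - z₂ = 0 := by
    refine int_eq_zero ?_ ?_ <;> push_cast <;> linarith [fu.1, fv.1, fw.1]
  have e5 : (z₁ : ℝ) + z₃ - z₂ = 0 := by exact_mod_cast e4
  obtain ⟨z, hz⟩ : ∃ z, α r q = z + z₁ * (2 * π) := ⟨_, (sub_add_cancel _ _).symm⟩
  have e6 : α q r = z + z₂ * (2 * π) := by linear_combination e3 + hz + (2 * π) * e5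
  have k : ∀ {B : Set (ℝ × ℝ)} {v x y}, Flat B v x y → ∀ (z : ℤ) θ, x ≤ θ + z * (2 * π) →
      θ + z * (2 * π) ≤ y → supp B θ = ip θ v := fun f z θ a1 a2 => by
    rw [← (per_supp _).int z, f.2 _ a1 a2, (per_ip _).int z]
  have c1 := gap_eq_zero.1 (cr p q pq).za
  have c2 := gap_eq_zero.1 (cr p r pr).za
  have c3 := gap_eq_zero.1 (cr r q qr.symm).za
  have c4 := mt gap_eq_zero.2 ((cr p q pq).pos _ h1 h1').ne'
  rw [hz, (per_supp _).int, (per_supp _).int] at c3
  rw [fu.2 _ le_rfl h1.le, k fv z₂ _ (by linarith) (by linarith)] at c1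
  rw [fu.2 _ h1.le le_rfl, k fw z₁ _ (by linarith) (by linarith)] at c2
  rw [k fv z₂ _ (by linarith) (by linarith), k fw z₁ _ (by linarith) (by linarith)] at c3
  rw [fu.2 _ h1.le le_rfl, k fv z₂ _ (by linarith) (by linarith)] at c4
  exact det3_pos h1 (by linarith) (by linarith [fu.1, fw.1]) c1 c2 c3.symm c4

theorem RealizedBy.count (h : RealizedBy (chi T) k A) (hT : Sweep T) (hn : 3 ≤ n) {Λ : Type}
    [Fintype Λ] (e : Λ → ℕ → Fin n) (inj : ∀ l, ∀ a < 9, ∀ b < 9, a ≠ b → e l a ≠ e l b)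
    (ord : ∀ l, ∀ a < 9, ∀ b < 9, ∀ c < 9, a ≠ b → a ≠ c → tg a b < tg a c →
      T (e l a) (e l b) < T (e l a) (e l c))
    (sep : ∀ l l', l ≠ l' → ∀ a < 9, ∀ a' < 9, e l a = e l' a' →
      (∀ b < 9, ∀ b' < 9, a ≠ b → a' ≠ b' → T (e l a) (e l b) < T (e l' a') (e l' b')) ∨
      ∀ b' < 9, ∀ b < 9, a' ≠ b' → a ≠ b → T (e l' a') (e l' b') < T (e l a) (e l b)) :
    Fintype.card Λ ≤ n * (6 * k) := by
  classical
  choose o α β h1 h2 using h.lift hT hn
  choose V V1 V2 V3 using h.gon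
  have bad : ∀ l, ∃ a < 9, ∀ v, ¬ ∀ b < 9, ∀ c < 9, a ≠ b → a ≠ c →
      Flat (A (e l a)) v (α (e l a) (e l b)) (α (e l a) (e l c)) := by
    intro l
    by_contra hc
    choose! v hv using fun a ha => not_forall_not.1 (not_and.1 (not_exists.1 hc a) ha)
    have key : ∀ a < 9, ∀ b < 9, ∀ c < 9, a ≠ b → a ≠ c → b ≠ c → tg a b < tg a c →
        tg a c < tg b c → 0 < det3 (v a) (v b) (v c) := by
      intro a ha b hb c hc ab ac bc t1 t2
      have k1 := h2 _ _ _ (inj l a ha b hb ab) (inj l a ha c hc ac) (ord l a ha b hb c hc ab ac t1)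
      refine det3_pos_of_flat (fun i j ij => (h1 i j ij).1) (inj l a ha b hb ab)
        (inj l a ha c hc ac) (inj l b hb c hc bc) k1.1 k1.2
        (h2 _ _ _ (inj l b hb a ha ab.symm) (inj l b hb c hc bc)
          (ord l b hb a ha c hc ab.symm bc ?_)).1
        (h2 _ _ _ (inj l c hc a ha ac.symm) (inj l c hc b hb bc.symm)
          (ord l c hc a ha b hb ac.symm bc.symm ?_)).1
        (hv a ha b hb c hc ab ac) (hv b hb a ha c hc ab.symm bc) (hv c hc a ha b hb ac.symm bc.symm)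
      · rw [tg_symm b hb a ha]
        exact t1.trans t2
      · rwa [tg_symm c hc a ha, tg_symm c hc b hb]
    refine not_stretchable v (fun a b c ab bc hc t => ?_) fun a b c ab bc hc t => ?_
    · have := (tg_mono c hc b bc a ab).resolve_right (by omega)
      exact key a (by omega) b (by omega) c hc ab.ne (by omega) bc.ne this.1 this.2
    · have := (tg_mono c hc b bc a ab).resolve_left (by omega)
      have := key c hc b (by omega) a (by omega) bc.ne' (by omega) ab.ne'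
        (by rw [tg_symm c hc b (by omega), tg_symm c hc a (by omega)]; exact this.1)
        (by rw [tg_symm c hc a (by omega), tg_symm b (by omega) a (by omega)]; exact this.2)
      convert this using 1
      simp only [det3]
      ring
  choose a ha bad using bad
  have first : ∀ l, ∃ b < 9, a l ≠ b ∧ ∀ c < 9, a l ≠ c →
      α (e l (a l)) (e l b) ≤ α (e l (a l)) (e l c) := fun l => by
    obtain ⟨b, hb, hm⟩ := ((Finset.range 9).filter fun b => a l ≠ b).exists_min_image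
      (fun b => α (e l (a l)) (e l b)) ⟨if a l = 0 then 1 else 0, by
        simp only [Finset.mem_filter, Finset.mem_range]
        split_ifs <;> omega⟩
    simp only [Finset.mem_filter, Finset.mem_range, and_imp] at hb hm
    exact ⟨b, hb.1, hb.2, hm⟩
  choose b hb ab first using first
  choose v v1 v2 v3 using fun l => exists_vertex (V1 (e l (a l))) (α (e l (a l)) (e l (b l)))
  by_contra hc
  have p3 : 0 < π / 3 := by positivity
  obtain ⟨l, -, l', -, ll, eq⟩ := Finset.exists_ne_map_eq_of_card_lt_of_maps_to (s := Finset.univ)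
    (t := Finset.univ.biUnion fun i => (Finset.range 6 ×ˢ V i).image (Prod.mk i))
    (f := fun l => (e l (a l), ⌊(α (e l (a l)) (e l (b l)) - o (e l (a l))) / (π / 3)⌋₊, v l))
    (((Finset.card_biUnion_le_card_mul _ _ (6 * k) fun i _ => Finset.card_image_le.trans (by
      simpa using V2 i)).trans_eq (by simp)).trans_lt (not_le.1 hc)) fun l _ => by
      have := (h1 _ _ (inj l _ (ha l) _ (hb l) (ab l))).2
      simp only [Finset.coe_biUnion, Finset.coe_univ, mem_univ, iUnion_true, mem_iUnion,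
        Finset.mem_coe]
      refine ⟨_, Finset.mem_image_of_mem _ (Finset.mem_product.2 ⟨Finset.mem_range.2 ?_, v1 l⟩)⟩
      rw [Nat.floor_lt (div_nonneg (by linarith) p3.le), div_lt_iff₀ p3]
      push_cast
      linarith
  simp only [Prod.mk.injEq] at eq
  wlog hlt : ∀ c < 9, ∀ c' < 9, a l ≠ c → a l' ≠ c' →
      T (e l (a l)) (e l c) < T (e l' (a l')) (e l' c') generalizing l l'
  · exact this l' l ll.symm ⟨eq.1.symm, eq.2.1.symm, eq.2.2.symm⟩
      ((sep l l' ll _ (ha l) _ (ha l') eq.1).resolve_left hlt)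
  obtain ⟨e1, e2, e3⟩ := eq
  have n1 := inj l' _ (ha l') _ (hb l') (ab l')
  have v4 := v3 l'
  rw [← e3] at v4
  rw [← e1] at hlt e2 n1 v4
  have lt : ∀ c < 9, a l ≠ c → α (e l (a l)) (e l c) < α (e l (a l)) (e l' (b l')) := fun c hc ac =>
    (h2 _ _ _ (inj l _ (ha l) c hc ac) n1 (hlt c hc _ (hb l') ac (ab l'))).1
  have near : α (e l (a l)) (e l' (b l')) < α (e l (a l)) (e l (b l)) + π / 3 := by
    have k1 := Nat.lt_floor_add_one ((α (e l (a l)) (e l' (b l')) - o (e l (a l))) / (π / 3))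
    have k2 := Nat.floor_le (div_nonneg (sub_nonneg.2
      (h1 _ _ (inj l _ (ha l) _ (hb l) (ab l))).2.1) p3.le)
    rw [← e2, div_lt_iff₀ p3] at k1
    rw [le_div_iff₀ p3] at k2
    linarith
  refine bad l (v l) fun c hc c' hc' ac ac' => ⟨?_, fun θ t1 t2 => ?_⟩
  · linarith [lt c' hc' ac', first l c hc ac]
  · rw [V3]
    exact supp_between (v1 l) (v3 l) v4 ((first l c hc ac).trans t1) (t2.trans (lt c' hc' ac').le)
      (lt _ (hb l) (ab l)) (by linarith)

end Pool.Agent.MP_14a896_co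

end

section

/-! A simple order type on `n` elements that needs polygons with a linear number of vertices. -/

open Set Real Filter Topology

namespace Pool.Agent.MP_14a896_co

lemma exists_lex {α : Type} [Finite α] (S E : α → ℝ) :
    ∃ δ : ℝ, 0 < δ ∧ ∀ p q, S p < S q → S p + δ * E p < S q + δ * E q := by
  have : ∀ᶠ δ : ℝ in 𝓝 0, ∀ p q, S p < S q → S p + δ * E p < S q + δ * E q := by
    refine eventually_all.2 fun p => eventually_all.2 fun q => ?_
    by_cases h : S p < S q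
    · exact (ContinuousAt.eventually_lt (f := fun δ : ℝ => S p + δ * E p)
        (g := fun δ : ℝ => S q + δ * E q) (by fun_prop) (by fun_prop) (by simpa using h)).mono
        fun δ hδ _ => hδ
    · exact Eventually.of_forall fun δ h' => absurd h' h
  obtain ⟨δ, h1, h2⟩ := ((this.filter_mono nhdsWithin_le_nhds).and
    (self_mem_nhdsWithin (s := Ioi (0 : ℝ)))).exists
  exact ⟨δ, h2, h1⟩

variable {n : ℕ}

/-- The slope between the points `(i, y i)` and `(j, y j)`. -/
noncomputable def slp (y : Fin n → ℕ) (i j : Fin n) : ℝ := ((y j : ℝ) - y i) / df i j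

/-- The tie-breaking rule for collinear points. -/
noncomputable def tie (y : Fin n → ℕ) (i j : Fin n) : ℝ :=
  if y i = y j then ((i : ℕ) : ℝ) + (j : ℕ) else tg (y i) (y j)

lemma exists_sweep (y : Fin n → ℕ) (hy : Monotone y) (h9 : ∀ i, y i < 9) :
    ∃ T : Fin n → Fin n → ℝ, Sweep T ∧
      (∀ i j k l, slp y i j < slp y k l → T i j < T k l) ∧
      ∀ i j k l, slp y i j = slp y k l → tie y i j < tie y k l → T i j < T k l := by
  obtain ⟨δ, hδ, h⟩ := exists_lex (fun p : Fin n × Fin n => slp y p.1 p.2) fun p => tie y p.1 p.2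
  have h1 : ∀ i j k l, slp y i j < slp y k l →
      slp y i j + δ * tie y i j < slp y k l + δ * tie y k l := fun i j k l => h (i, j) (k, l)
  have h2 : ∀ i j k l, slp y i j = slp y k l → tie y i j < tie y k l →
      slp y i j + δ * tie y i j < slp y k l + δ * tie y k l := fun i j k l e e' => by
    nlinarith
  refine ⟨fun i j => slp y i j + δ * tie y i j, ⟨fun i j => ?_, fun i j k ij jk => ?_⟩, h1, h2⟩
  · congr 1
    · rw [slp, slp, df, df, ← neg_div_neg_eq, neg_sub, neg_sub]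
    · simp only [tie, eq_comm (a := y j), add_comm, tg_symm _ (h9 i) _ (h9 j)]
  have a1 := df_pos ij
  have a2 := df_pos jk
  have b1 : slp y i j * df i j = y j - y i := div_mul_cancel₀ _ a1.ne'
  have b2 : slp y j k * df j k = y k - y j := div_mul_cancel₀ _ a2.ne'
  have b3 : slp y i k * (df i j + df j k) = slp y i j * df i j + slp y j k * df j k := by
    rw [b1, b2, show df i j + df j k = df i k by simp [df], slp,
      div_mul_cancel₀ _ (df_pos (ij.trans jk)).ne']
    ring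
  rcases lt_trichotomy (slp y i j) (slp y j k) with c | c | c
  · exact Or.inl ⟨h1 _ _ _ _ (by nlinarith), h1 _ _ _ _ (by nlinarith)⟩
  swap
  · exact Or.inr ⟨h1 _ _ _ _ (by nlinarith), h1 _ _ _ _ (by nlinarith)⟩
  have c' : slp y i k = slp y i j := mul_right_cancel₀ (add_pos a1 a2).ne' (by rw [b3, ← c]; ring)
  rcases (hy ij.le).eq_or_lt with d | d
  · have d' : y j = y k := by
      have : slp y j k = 0 := by rw [← c, slp, d, sub_self, zero_div]
      rw [this, zero_mul, eq_comm, sub_eq_zero] at b2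
      exact_mod_cast b2.symm
    refine Or.inl ⟨h2 _ _ _ _ c'.symm ?_, h2 _ _ _ _ (c'.trans c) ?_⟩
    · simpa [tie, d, d'] using jk
    · simpa [tie, d, d'] using ij
  · have d' : y j < y k := by
      have : 0 < slp y j k := c ▸ div_pos (sub_pos.2 (Nat.cast_lt.2 d)) a1
      exact_mod_cast sub_pos.1 (b2 ▸ mul_pos this a2)
    refine (tg_mono _ (h9 k) _ d' _ d).imp
      (fun t => ⟨h2 _ _ _ _ c'.symm ?_, h2 _ _ _ _ (c'.trans c) ?_⟩)
      fun t => ⟨h2 _ _ _ _ (c'.trans c).symm ?_, h2 _ _ _ _ c' ?_⟩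
    · simpa [tie, d.ne, (d.trans d').ne] using t.1
    · simpa [tie, d'.ne, (d.trans d').ne] using t.2
    · simpa [tie, d'.ne, (d.trans d').ne] using t.1
    · simpa [tie, d.ne, (d.trans d').ne] using t.2

theorem Suffices.grid {k q : ℕ} (h : Suffices n k) (hn : 3 ≤ n) (hq : 144 * q ≤ n) :
    1 ≤ k ∧ 8 * q * q ≤ n * (6 * k) := by
  let y : Fin n → ℕ := fun i => min (i / (16 * q)) 8
  obtain ⟨T, hT, h1, h2⟩ := exists_sweep y
    (fun i j ij => min_le_min_right _ (Nat.div_le_div_right ij))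
    fun i => (min_le_right _ _).trans_lt (by norm_num)
  obtain ⟨A, hA⟩ := h _ hT.isSimpleOrderType
  constructor
  · obtain ⟨V, hV, hk, -⟩ := hA.gon ⟨0, by omega⟩
    exact hV.card_pos.trans_le hk
  let e : Fin (8 * q) × Fin q → ℕ → Fin n := fun l a => ⟨min a 8 * (16 * q + l.2) + l.1, by
    have := l.1.2
    have := l.2.2
    have := Nat.mul_le_mul_right (16 * q + l.2) (min_le_right a 8)
    omega⟩
  have ev : ∀ l, ∀ a < 9, (e l a : ℕ) = a * (16 * q + l.2) + l.1 := fun l a ha => by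
    simp only [e, min_eq_left (Nat.le_of_lt_succ ha)]
  have ey : ∀ l, ∀ a < 9, y (e l a) = a := fun l a ha => by
    have := l.1.2
    have := l.2.2
    have := Nat.mul_le_mul_right l.2 (Nat.le_of_lt_succ ha)
    have : (e l a : ℕ) / (16 * q) = a := by
      rw [ev l a ha]
      refine Nat.div_eq_of_lt_le ?_ ?_ <;> simp only [mul_add, add_mul] <;> omega
    simp only [y, this, min_eq_left (Nat.le_of_lt_succ ha)]
  have es : ∀ l, ∀ a < 9, ∀ b < 9, a ≠ b →
      slp y (e l a) (e l b) = 1 / ((16 * q + l.2 : ℕ) : ℝ) := fun l a ha b hb ab => by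
    have : (b : ℝ) - a ≠ 0 := sub_ne_zero.2 (Nat.cast_injective.ne ab.symm)
    rw [slp, df, ey l a ha, ey l b hb, ev l a ha, ev l b hb, Nat.cast_add, Nat.cast_add (a * _),
      add_sub_add_right_eq_sub, Nat.cast_mul, Nat.cast_mul a, ← sub_mul, div_mul_cancel_left₀ this,
      one_div]
  have pos : ∀ l : Fin (8 * q) × Fin q, (0 : ℝ) < (16 * q + l.2 : ℕ) := fun l => by
    have := l.2.2
    exact Nat.cast_pos.2 (by omega)
  simpa using hA.count hT hn e (fun l a ha b hb ab e' => ab (by rw [← ey l a ha, e', ey l b hb]))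
    (fun l a ha b hb c hc ab ac t => h2 _ _ _ _ (by rw [es l a ha b hb ab, es l a ha c hc ac])
      (by simpa [tie, ey l a ha, ey l b hb, ey l c hc, ab, ac] using t))
    fun l l' ll a ha a' ha' e' => by
      obtain rfl : a = a' := by rw [← ey l a ha, e', ey l' a' ha']
      have ne : l.2 ≠ l'.2 := fun e'' => ll (Prod.ext (Fin.ext (by
        have := congrArg Fin.val e'
        rw [ev l a ha, ev l' a ha, e''] at this
        omega)) e'')
      rcases ne.lt_or_gt with c | c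
      · refine Or.inr fun b' hb' b hb ab' ab => h1 _ _ _ _ ?_
        rw [es l a ha b hb ab, es l' a ha b' hb' ab']
        exact one_div_lt_one_div_of_lt (pos l) (Nat.cast_lt.2 (Nat.add_lt_add_left c _))
      · refine Or.inl fun b hb b' hb' ab ab' => h1 _ _ _ _ ?_
        rw [es l a ha b hb ab, es l' a ha b' hb' ab']
        exact one_div_lt_one_div_of_lt (pos l') (Nat.cast_lt.2 (Nat.add_lt_add_left c _))

theorem Suffices.lower {k : ℕ} (h : Suffices n k) (hn : 3 ≤ n) : n ≤ 20000 * k := by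
  obtain ⟨h1, h2⟩ := h.grid hn (Nat.mul_div_le n 144)
  rcases le_or_gt n 20000 with h3 | h3
  · omega
  have h4 : n ≤ 146 * (n / 144) := by omega
  generalize n / 144 = q at h2 h4
  refine le_of_mul_le_mul_left (a := n) ?_ (by omega)
  nlinarith [Nat.mul_le_mul h4 h4, Nat.zero_le (n * k)]

end Pool.Agent.MP_14a896_co

end
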